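import Pool.Agent.W_7d29a1_Z57.AlgE57c

/-!
STORM Z, SECOND STOREY: the end in the variables `m ≤ n`.
-/

namespace Pool.Agent.W_7d29a1_Z57

open Real Finset Filter Pool.Agent.W_7d29a1_21z

variable {w E : ℕ → ℝ} {G : ℝ → ℕ → ℕ → ℕ → ℕ → ℝ → Prop}

theorem lg2 (k : ℕ) : Real.logb 2 ((2 ^ k : ℕ) : ℝ) = k := by
  push_cast
  rw [Real.logb_pow, Real.logb_self_eq_one (by norm_num), mul_one]

/-- **THE END OF THE SECOND STOREY.** Below `n ≥ m ^ (1 + η)`, `m` large. -/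
theorem endE (hI : IfaceE w E G) (hwpos : ∀ n, 0 < w n) (hEpos : ∀ n, 0 < E n) {n₁ : ℕ} {C c : ℝ} (hC : 1 ≤ C) (hc : 0 < c)
    (hw : ∀ m n : ℕ, n₁ ≤ m → m ≤ n → w m ≤ C * w n ∧ w n ≤ C * ((n : ℝ) / m) * w m)
    (hE : ∀ m n : ℕ, n₁ ≤ m → m ≤ n → E m ≤ C * E n ∧ E n ≤ C * ((n : ℝ) / m) * E m)
    (hlo : ∀ m n : ℕ, n₁ ≤ m → m ≤ n → c * ((n : ℝ) / m) ^ c * w m ≤ w n)
    (hup : ∀ m n : ℕ, n₁ ≤ m → m ≤ n → w n ≤ C * ((n : ℝ) / m) ^ (1 - c) * w m)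
    (hNP : ∀ m n : ℕ, n₁ ≤ m → m ≤ n → c * ((n : ℝ) / m) ^ (1 + c) * (w m * E m ^ 2) ≤ w n * E n ^ 2) :
    ∃ c' : ℝ, 0 < c' ∧ ∀ η : ℝ, 0 < η → ∃ m₀ : ℕ, ∀ m n : ℕ, m₀ ≤ m → (m : ℝ) ^ (1 + η) ≤ n →
      ((n : ℝ) / m) ^ (1 / 2 + c') * w m ≤ w n ∧
        ((n : ℝ) / m) ^ (1 / 2 + c') * (E n / E m) ≤ (w n / w m) ^ (3 / 2 : ℝ) := by
  have hCpos : 0 < C := by linarith
  have hC0 : 0 ≤ Real.logb 2 C := Real.logb_nonneg (by norm_num) hC
  obtain ⟨f, hf⟩ : ∃ f : ℕ → ℝ, f = fun k => Real.logb 2 (w (2 ^ k)) := ⟨_, rfl⟩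
  obtain ⟨g, hg⟩ : ∃ g : ℕ → ℝ, g = fun k => Real.logb 2 (E (2 ^ k)) := ⟨_, rfl⟩
  have hLf : LipFrom f (1 + Real.logb 2 C) n₁ := by rw [hf]; exact lip_of_reg w C n₁ hC (fun n _ => hwpos n) hw
  have hLg : LipFrom g (1 + Real.logb 2 C) n₁ := by rw [hg]; exact lip_of_reg E C n₁ hC (fun n _ => hEpos n) hE
  have hpow : ∀ s : ℕ, n₁ ≤ s → n₁ ≤ 2 ^ s := fun s hs => le_trans hs (Nat.lt_two_pow_self).le
  have hcast : ∀ s t : ℕ, Real.logb 2 (((2 ^ t : ℕ) : ℝ) / ((2 ^ s : ℕ) : ℝ)) = (t : ℝ) - s := by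
    intro s t
    rw [Real.logb_div (by positivity) (by positivity), lg2, lg2]
  have hpd : ∀ s t : ℕ, (0 : ℝ) < ((2 ^ t : ℕ) : ℝ) / ((2 ^ s : ℕ) : ℝ) := fun s t => by positivity
  obtain ⟨c₁, hc₁⟩ : ∃ c₁ : ℝ, c₁ = min c (1 / 10) := ⟨_, rfl⟩
  have hc₁0 : 0 < c₁ := by rw [hc₁]; exact lt_min hc (by norm_num)
  have hc₁c : c₁ ≤ c := by rw [hc₁]; exact min_le_left _ _
  have hc₁1 : c₁ ≤ 1 / 10 := by rw [hc₁]; exact min_le_right _ _
  obtain ⟨K, hK⟩ : ∃ K : ℝ, K = |Real.logb 2 c| + Real.logb 2 C := ⟨_, rfl⟩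
  have hK0 : 0 ≤ K := by rw [hK]; positivity
  have hcabs := neg_abs_le (Real.logb 2 c)
  have habs0 := abs_nonneg (Real.logb 2 c)
  have H1 : ∀ s t : ℕ, n₁ ≤ s → s ≤ t → c₁ * ((t : ℝ) - s) - K ≤ f t - f s := by
    intro s t hs hst
    have hst' : (s : ℝ) ≤ t := by exact_mod_cast hst
    have h := hlo _ _ (hpow s hs) (Nat.pow_le_pow_right (by norm_num) hst : 2 ^ s ≤ 2 ^ t)
    have h3 := Real.logb_le_logb_of_le (b := 2) (by norm_num)
      (mul_pos (mul_pos hc (Real.rpow_pos_of_pos (hpd s t) c)) (hwpos (2 ^ s))) h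
    rw [Real.logb_mul (mul_pos hc (Real.rpow_pos_of_pos (hpd s t) c)).ne' (hwpos _).ne', Real.logb_mul hc.ne'
      (Real.rpow_pos_of_pos (hpd s t) c).ne', Real.logb_rpow_eq_mul_logb_of_pos (hpd s t), hcast] at h3
    have h4 := mul_le_mul_of_nonneg_right hc₁c (by linarith : 0 ≤ (t : ℝ) - s)
    rw [hf]
    simp only
    linarith
  have H2 : ∀ s t : ℕ, n₁ ≤ s → s ≤ t → f t - f s ≤ (1 - c₁) * ((t : ℝ) - s) + K := by
    intro s t hs hst
    have hst' : (s : ℝ) ≤ t := by exact_mod_cast hst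
    have h := hup _ _ (hpow s hs) (Nat.pow_le_pow_right (by norm_num) hst : 2 ^ s ≤ 2 ^ t)
    have h3 := Real.logb_le_logb_of_le (b := 2) (by norm_num) (hwpos _) h
    rw [Real.logb_mul (mul_pos hCpos (Real.rpow_pos_of_pos (hpd s t) _)).ne' (hwpos _).ne', Real.logb_mul hCpos.ne'
      (Real.rpow_pos_of_pos (hpd s t) _).ne', Real.logb_rpow_eq_mul_logb_of_pos (hpd s t), hcast] at h3
    have h4 := mul_le_mul_of_nonneg_right hc₁c (by linarith : 0 ≤ (t : ℝ) - s)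
    rw [hf]
    simp only
    linarith
  have H3 : ∀ s t : ℕ, n₁ ≤ s → s ≤ t → (1 + c₁) * ((t : ℝ) - s) - K ≤ (f t - f s) + 2 * (g t - g s) := by
    intro s t hs hst
    have hst' : (s : ℝ) ≤ t := by exact_mod_cast hst
    have h := hNP _ _ (hpow s hs) (Nat.pow_le_pow_right (by norm_num) hst : 2 ^ s ≤ 2 ^ t)
    have hws := hwpos (2 ^ s)
    have hwt := hwpos (2 ^ t)
    have hss := hEpos (2 ^ s)
    have hstt := hEpos (2 ^ t)
    have h3 := Real.logb_le_logb_of_le (b := 2) (by norm_num)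
      (mul_pos (mul_pos hc (Real.rpow_pos_of_pos (hpd s t) _)) (mul_pos hws (pow_pos hss 2))) h
    rw [Real.logb_mul (mul_pos hc (Real.rpow_pos_of_pos (hpd s t) _)).ne' (mul_pos hws (pow_pos hss 2)).ne',
      Real.logb_mul hc.ne' (Real.rpow_pos_of_pos (hpd s t) _).ne', Real.logb_rpow_eq_mul_logb_of_pos (hpd s t), hcast,
      Real.logb_mul hws.ne' (pow_pos hss 2).ne', Real.logb_mul hwt.ne' (pow_pos hstt 2).ne', Real.logb_pow, Real.logb_pow] at h3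
    push_cast at h3
    have h4 := mul_le_mul_of_nonneg_right hc₁c (by linarith : 0 ≤ (t : ℝ) - s)
    rw [hf, hg]
    simp only
    linarith
  have hlog := endE_log hI hwpos hEpos hf hg hc₁0 hc₁1 hK0 (by positivity : 0 ≤ 1 + Real.logb 2 C) hLf hLg H1 H2 H3
  refine ⟨c₁ / 32, by positivity, fun η hη => ?_⟩
  obtain ⟨t₁, ht₁⟩ := hlog (η / 2) (by positivity)
  obtain ⟨J, hJ⟩ : ∃ J : ℕ, (2000 * (Real.logb 2 C + 1) / (c₁ * η) + 2 / η) < J := exists_nat_gt _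
  refine ⟨2 ^ (t₁ + J + n₁ + 1), fun m n hm hmn => ?_⟩
  have hm1 : 1 ≤ m := le_trans (Nat.one_le_pow _ _ (by norm_num)) hm
  have hmR : (1 : ℝ) ≤ m := by exact_mod_cast hm1
  have hm0 : (0 : ℝ) < m := by linarith
  have hmn' : (m : ℝ) ≤ n := by
    refine le_trans ?_ hmn
    calc (m : ℝ) = (m : ℝ) ^ (1 : ℝ) := (Real.rpow_one _).symm
      _ ≤ _ := Real.rpow_le_rpow_of_exponent_le hmR (by linarith)
  have hmnN : m ≤ n := by exact_mod_cast hmn'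
  have hn0 : (0 : ℝ) < n := lt_of_lt_of_le hm0 hmn'
  obtain ⟨s, hs⟩ : ∃ s : ℕ, s = Nat.log 2 m := ⟨_, rfl⟩
  obtain ⟨t, ht⟩ : ∃ t : ℕ, t = Nat.log 2 n := ⟨_, rfl⟩
  have hsm : 2 ^ s ≤ m := by rw [hs]; exact Nat.pow_log_le_self 2 (by omega)
  have hsm' : m < 2 ^ (s + 1) := by rw [hs]; exact Nat.lt_pow_succ_log_self (by norm_num) m
  have htn : 2 ^ t ≤ n := by rw [ht]; exact Nat.pow_log_le_self 2 (by omega)
  have htn' : n < 2 ^ (t + 1) := by rw [ht]; exact Nat.lt_pow_succ_log_self (by norm_num) n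
  have hsJ : t₁ + J + n₁ + 1 ≤ s := by
    by_contra hcon
    push Not at hcon
    have : 2 ^ (s + 1) ≤ 2 ^ (t₁ + J + n₁ + 1) := Nat.pow_le_pow_right (by norm_num) (by omega)
    omega
  have hJs : (J : ℝ) ≤ s := by
    have : J ≤ s := by omega
    exact_mod_cast this
  -- logarithms of `m` and `n`
  have L1 : (s : ℝ) ≤ Real.logb 2 m := by
    have h5 : ((2 ^ s : ℕ) : ℝ) ≤ m := by exact_mod_cast hsm
    have h6 := Real.logb_le_logb_of_le (b := 2) (by norm_num) (by positivity) h5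
    rwa [lg2] at h6
  have L2 : Real.logb 2 n ≤ t + 1 := by
    have h5 : (n : ℝ) ≤ ((2 ^ (t + 1) : ℕ) : ℝ) := by exact_mod_cast htn'.le
    have h6 := Real.logb_le_logb_of_le (b := 2) (by norm_num) hn0 h5
    rw [lg2] at h6
    push_cast at h6
    exact h6
  have L3 : (1 + η) * Real.logb 2 m ≤ Real.logb 2 n := by
    have h6 := Real.logb_le_logb_of_le (b := 2) (by norm_num) (Real.rpow_pos_of_pos hm0 _) hmn
    rwa [Real.logb_rpow_eq_mul_logb_of_pos hm0] at h6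
  have hJη : 2000 * (Real.logb 2 C + 1) ≤ c₁ * (η * s) ∧ 2 ≤ η * s := by
    have k1 : 0 ≤ 2000 * (Real.logb 2 C + 1) / (c₁ * η) := by positivity
    have k2 : 0 ≤ 2 / η := by positivity
    have k3 : 2000 * (Real.logb 2 C + 1) / (c₁ * η) ≤ s := by linarith
    have k4 : 2 / η ≤ s := by linarith
    rw [div_le_iff₀ (by positivity)] at k3 k4
    exact ⟨by linarith, by linarith⟩
  obtain ⟨J1, J2⟩ := hJη
  have L4 : (1 + η) * s ≤ (1 + η) * Real.logb 2 m := mul_le_mul_of_nonneg_left L1 (by linarith)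
  have hst : (1 + η / 2) * (s : ℝ) ≤ t := by linarith
  have hd : η * s ≤ 2 * ((t : ℝ) - s) := by linarith
  have hd0 : 0 ≤ (t : ℝ) - s := by linarith
  have J3 : 1000 * (Real.logb 2 C + 1) ≤ c₁ * ((t : ℝ) - s) := by
    have := mul_le_mul_of_nonneg_left hd hc₁0.le
    linarith
  obtain ⟨R1, R2⟩ := ht₁ s t (by omega) hst
  -- the comparison of `m`, `2 ^ s` and of `n`, `2 ^ t`
  have hn₁s : n₁ ≤ 2 ^ s := hpow s (by omega)
  have hn₁t : n₁ ≤ 2 ^ t := by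
    have h1 : s ≤ t := by
      have : (s : ℝ) ≤ t := by linarith
      exact_mod_cast this
    exact hpow t (by omega)
  have ratio : ∀ (k N : ℕ), 2 ^ k ≤ N → N < 2 ^ (k + 1) → (N : ℝ) / ((2 ^ k : ℕ) : ℝ) ≤ 2 := by
    intro k N _ h2
    rw [div_le_iff₀ (by positivity)]
    have : (N : ℝ) ≤ ((2 ^ (k + 1) : ℕ) : ℝ) := by exact_mod_cast h2.le
    rw [pow_succ] at this
    push_cast at this ⊢
    linarith
  have cmp : ∀ (u : ℕ → ℝ), (∀ n, 0 < u n) → (∀ m n : ℕ, n₁ ≤ m → m ≤ n → u m ≤ C * u n ∧ u n ≤ C * ((n : ℝ) / m) * u m) →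
      ∀ k N : ℕ, n₁ ≤ 2 ^ k → 2 ^ k ≤ N → N < 2 ^ (k + 1) →
      Real.logb 2 (u (2 ^ k)) ≤ Real.logb 2 C + Real.logb 2 (u N) ∧
        Real.logb 2 (u N) ≤ Real.logb 2 C + 1 + Real.logb 2 (u (2 ^ k)) := by
    intro u hu h k N hk hkN hN
    have h1 := h _ _ hk hkN
    constructor
    · rw [← Real.logb_mul hCpos.ne' (hu N).ne']
      exact Real.logb_le_logb_of_le (by norm_num) (hu _) h1.1
    · have h2 : u N ≤ C * 2 * u (2 ^ k) := by
        refine h1.2.trans ?_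
        exact mul_le_mul_of_nonneg_right (mul_le_mul_of_nonneg_left (ratio k N hkN hN) hCpos.le) (hu _).le
      have h3 := Real.logb_le_logb_of_le (b := 2) (by norm_num) (hu N) h2
      rw [Real.logb_mul (by positivity) (hu _).ne', Real.logb_mul hCpos.ne' (by norm_num),
        Real.logb_self_eq_one (by norm_num)] at h3
      exact h3
  obtain ⟨wm1, wm2⟩ := cmp w hwpos hw s m hn₁s hsm hsm'
  obtain ⟨wn1, wn2⟩ := cmp w hwpos hw t n hn₁t htn htn'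
  obtain ⟨Em1, Em2⟩ := cmp E hEpos hE s m hn₁s hsm hsm'
  obtain ⟨En1, En2⟩ := cmp E hEpos hE t n hn₁t htn htn'
  have hfs : Real.logb 2 (w (2 ^ s)) = f s := by rw [hf]
  have hft : Real.logb 2 (w (2 ^ t)) = f t := by rw [hf]
  have hgs : Real.logb 2 (E (2 ^ s)) = g s := by rw [hg]
  have hgt : Real.logb 2 (E (2 ^ t)) = g t := by rw [hg]
  rw [hfs] at wm1 wm2
  rw [hft] at wn1 wn2
  rw [hgs] at Em1 Em2
  rw [hgt] at En1 En2
  have hq : Real.logb 2 ((n : ℝ) / m) ≤ t - s + 1 := by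
    rw [Real.logb_div hn0.ne' hm0.ne']
    linarith
  have hq0 : 0 < (n : ℝ) / m := div_pos hn0 hm0
  have hq' : (1 / 2 + c₁ / 32) * Real.logb 2 ((n : ℝ) / m) ≤ (1 / 2 + c₁ / 32) * (t - s + 1) :=
    mul_le_mul_of_nonneg_left hq (by positivity)
  constructor
  · have key : Real.logb 2 (((n : ℝ) / m) ^ (1 / 2 + c₁ / 32) * w m) ≤ Real.logb 2 (w n) := by
      rw [Real.logb_mul (Real.rpow_pos_of_pos hq0 _).ne' (hwpos m).ne', Real.logb_rpow_eq_mul_logb_of_pos hq0]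
      linarith
    exact (Real.logb_le_logb (by norm_num) (mul_pos (Real.rpow_pos_of_pos hq0 _) (hwpos m)) (hwpos n)).1 key
  · have hw3 : 0 < (w n / w m) := div_pos (hwpos n) (hwpos m)
    have hE3 : 0 < E n / E m := div_pos (hEpos n) (hEpos m)
    have key : Real.logb 2 (((n : ℝ) / m) ^ (1 / 2 + c₁ / 32) * (E n / E m)) ≤ Real.logb 2 ((w n / w m) ^ (3 / 2 : ℝ)) := by
      rw [Real.logb_mul (Real.rpow_pos_of_pos hq0 _).ne' hE3.ne', Real.logb_rpow_eq_mul_logb_of_pos hq0,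
        Real.logb_rpow_eq_mul_logb_of_pos hw3, Real.logb_div (hEpos n).ne' (hEpos m).ne',
        Real.logb_div (hwpos n).ne' (hwpos m).ne']
      linarith
    exact (Real.logb_le_logb (by norm_num) (mul_pos (Real.rpow_pos_of_pos hq0 _) hE3) (Real.rpow_pos_of_pos hw3 _)).1 key

end Pool.Agent.W_7d29a1_Z57
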