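import Pool.Agent.W_7d29a1_Z57.AlgE57

/-!
STORM Z, SECOND STOREY: the window theorem. In every long window in which `log w` and `log E` are almost linear, with the slopes `ν`,
`χ`: `2 χ < ν + δ` or `χ < 2 ν - 1 + δ`.
-/

namespace Pool.Agent.W_7d29a1_Z57

open Real

variable {w E : ℕ → ℝ} {G : ℝ → ℕ → ℕ → ℕ → ℕ → ℝ → Prop}

/-- The finite iteration. -/
theorem iterE (hI : IfaceE w E G) {κ δ β η0 : ℝ} (hκ : 0 < κ) (hδ : 0 < δ) (hδ1 : δ ≤ 1) (hη0 : 0 < η0) (hηβ : 2 * η0 ≤ β)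
    (N : ℕ) (hN : 80 * ((32 / δ ^ 2) ^ N * (8 * η0)) ≤ δ) : ∀ i : ℕ, i ≤ N → ∃ c : ℝ, 0 < c ∧ ∃ a₀ : ℕ, ∀ a Λ : ℕ, a₀ ≤ a →
      κ * a ≤ Λ → Λ ≤ a → ∀ ν χ : ℝ, Win w E η0 a Λ ν χ → β ≤ ν → ν + δ ≤ 2 * χ → 2 * ν - 1 + δ ≤ χ →
      RespE E G c (i * (δ ^ 2 / 8)) ((32 / δ ^ 2) ^ i * (8 * η0)) a Λ ∧
        (i * (δ ^ 2 / 8) ≤ ν - χ + δ ^ 2 / 8 + δ / 16 ∨ i = 0) := by
  have hδ2 : 0 < δ ^ 2 := by positivity
  have hδ21 : δ ^ 2 ≤ 1 := pow_le_one₀ hδ.le hδ1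
  have hδδ : δ ^ 2 ≤ δ := by nlinarith
  have hC1 : 1 ≤ 32 / δ ^ 2 := by
    rw [le_div_iff₀ hδ2]
    linarith
  have hη1 : ∀ i : ℕ, 8 * η0 ≤ (32 / δ ^ 2) ^ i * (8 * η0) := fun i => le_mul_of_one_le_left (by positivity) (one_le_pow₀ hC1)
  have hη2 : ∀ i : ℕ, i ≤ N → 5 * ((32 / δ ^ 2) ^ i * (8 * η0)) ≤ δ / 16 := by
    intro i hi
    have k1 : (32 / δ ^ 2) ^ i * (8 * η0) ≤ (32 / δ ^ 2) ^ N * (8 * η0) :=
      mul_le_mul_of_nonneg_right (pow_le_pow_right₀ hC1 hi) (by positivity)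
    linarith
  have hη0δ : 80 * η0 ≤ δ := by
    have := hη1 N
    linarith
  intro i
  induction i with
  | zero =>
    intro _
    obtain ⟨c, hc, a₀, h⟩ := hI.base κ (8 * η0) hκ (by positivity)
    refine ⟨c, hc, a₀, fun a Λ ha h1 h2 ν χ hW _ _ _ => ⟨fun x hx => ?_, Or.inr rfl⟩⟩
    have hΛ0 : (0 : ℝ) ≤ Λ := Nat.cast_nonneg _
    refine ⟨1, le_rfl, ?_, ?_, hI.mono hc le_rfl ?_ (h a Λ x ha h1 h2 hx)⟩
    · rw [Nat.cast_one]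
      refine Real.rpow_le_one_of_one_le_of_nonpos one_le_two ?_
      have : 0 ≤ 8 * η0 * Λ := by positivity
      simp only [Nat.cast_zero, zero_mul, mul_zero, pow_zero, one_mul]
      linarith
    · rw [Nat.cast_one]
      refine p2one ?_
      simp only [Nat.cast_zero, zero_mul, mul_zero]
      exact le_rfl
    · rw [mul_comm]
      refine mul_le_mul_of_nonneg_left (p2mono (le_of_eq ?_)) hW.E0.le
      simp only [Nat.cast_zero, zero_mul, pow_zero, one_mul, zero_add]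
  | succ i ih =>
    intro hi
    obtain ⟨c, hc, a₁, h1⟩ := ih (by omega)
    obtain ⟨a₂, h2⟩ := top_use hI hκ hc hη0
    obtain ⟨c', hc', a₃, h3⟩ := step_use hI hκ hc hδ hδ1 hη0
    refine ⟨c', hc', a₁ + a₂ + a₃ + 1, fun a Λ ha hΛ1 hΛ2 ν χ hW hν k1 k2 => ?_⟩
    obtain ⟨hR, hs⟩ := h1 a Λ (by omega) hΛ1 hΛ2 ν χ hW hν k1 k2
    have hΛ : 1 ≤ Λ := by
      by_contra hcon
      have h0 : Λ = 0 := by omega
      have h4 : (1 : ℝ) ≤ a := by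
        have : 1 ≤ a := by omega
        exact_mod_cast this
      rw [h0, Nat.cast_zero] at hΛ1
      have := mul_pos hκ (lt_of_lt_of_le one_pos h4)
      linarith
    have hσ0 : (0 : ℝ) ≤ i * (δ ^ 2 / 8) := by positivity
    have e5 := hη2 i (by omega)
    have e6 := hη1 i
    have hside : 2 * (i * (δ ^ 2 / 8)) + η0 + η0 ≤ ν := by
      rcases hs with hs | hs
      · linarith
      · rw [hs, Nat.cast_zero]
        linarith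
    have hT := h2 a Λ (by omega) hΛ1 hΛ2 hΛ ν χ η0 _ _ hW hσ0 (by positivity) hside hR
    have hT' : i * (δ ^ 2 / 8) ≤ ν - χ + 5 * ((32 / δ ^ 2) ^ i * (8 * η0)) := by linarith
    have key := h3 a Λ (by omega) hΛ1 hΛ2 ν χ _ _ (δ ^ 2 / 8) hW k1 k2 hσ0 e6 e5 hT' (by positivity) le_rfl hR
    have q1 : ((i + 1 : ℕ) : ℝ) * (δ ^ 2 / 8) = i * (δ ^ 2 / 8) + δ ^ 2 / 8 := by push_cast; ring
    have q2 : (32 / δ ^ 2) ^ (i + 1) * (8 * η0) = 32 * ((32 / δ ^ 2) ^ i * (8 * η0)) / δ ^ 2 := by rw [pow_succ]; ring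
    rw [q1, q2]
    exact ⟨key, Or.inl (by linarith)⟩

/-- **THE WINDOW THEOREM** (tie rate `1 / E`): `2 χ < ν + δ` or `χ < 2 ν - 1 + δ`. -/
theorem winE (hI : IfaceE w E G) {δ β : ℝ} (hδ : 0 < δ) (hδ1 : δ ≤ 1) (hβ : 0 < β) : ∃ ε : ℝ, 0 < ε ∧ ∀ κ : ℝ, 0 < κ →
    ∃ a₀ : ℕ, ∀ a Λ : ℕ, a₀ ≤ a → κ * a ≤ Λ → Λ ≤ a → ∀ ν χ : ℝ, Win w E ε a Λ ν χ → β ≤ ν →
      2 * χ < ν + δ ∨ χ < 2 * ν - 1 + δ := by
  have hδ2 : 0 < δ ^ 2 := by positivity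
  have hδ21 : δ ^ 2 ≤ 1 := pow_le_one₀ hδ.le hδ1
  have hδδ : δ ^ 2 ≤ δ := by nlinarith
  have hC1 : 1 ≤ 32 / δ ^ 2 := by
    rw [le_div_iff₀ hδ2]
    linarith
  obtain ⟨N, hN⟩ : ∃ N : ℕ, 8 / δ ^ 2 < N := exists_nat_gt _
  have hN1 : 1 ≤ N * (δ ^ 2 / 8) := by
    rw [div_lt_iff₀ hδ2] at hN
    linarith
  have hCN : 0 < (32 / δ ^ 2) ^ N := by positivity
  obtain ⟨η0, hη⟩ : ∃ η0 : ℝ, η0 = min (β / 2) (δ / (640 * (32 / δ ^ 2) ^ N)) := ⟨_, rfl⟩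
  have hη0 : 0 < η0 := by rw [hη]; exact lt_min (by positivity) (by positivity)
  have hηβ : 2 * η0 ≤ β := by
    have := min_le_left (β / 2) (δ / (640 * (32 / δ ^ 2) ^ N))
    rw [← hη] at this
    linarith
  have hηN : 80 * ((32 / δ ^ 2) ^ N * (8 * η0)) ≤ δ := by
    have h1 := min_le_right (β / 2) (δ / (640 * (32 / δ ^ 2) ^ N))
    rw [← hη, le_div_iff₀ (by positivity)] at h1
    linarith
  refine ⟨η0, hη0, fun κ hκ => ?_⟩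
  obtain ⟨c, hc, a₁, h1⟩ := iterE hI hκ hδ hδ1 hη0 hηβ N hηN N le_rfl
  refine ⟨a₁, fun a Λ ha hΛ1 hΛ2 ν χ hW hν => ?_⟩
  by_contra hcon
  push Not at hcon
  obtain ⟨k1, k2⟩ := hcon
  obtain ⟨hR, hs⟩ := h1 a Λ (by omega) hΛ1 hΛ2 ν χ hW hν k1 k2
  have hη0δ : 80 * η0 ≤ δ := by
    have h4 : 1 * η0 ≤ (32 / δ ^ 2) ^ N * η0 := mul_le_mul_of_nonneg_right (one_le_pow₀ hC1) hη0.le
    linarith
  have hs' : N * (δ ^ 2 / 8) ≤ ν - χ + δ ^ 2 / 8 + δ / 16 := by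
    rcases hs with hs | hs
    · exact hs
    · rw [hs, Nat.cast_zero, zero_mul] at hN1
      linarith
  linarith

end Pool.Agent.W_7d29a1_Z57
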