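import Pool.Agent.W_7d29a1_21z.WindowsPoly

/-!
STORM Z, SECOND STOREY: the algebra of the windows with the tie rate `E (2 ^ a) / E (2 ^ k)` (near ties of the depth `M` in a window of
the duration `t` have a probability at most `M / E t`).

`G c a Λ k z A` (opaque): in the window of scales `[2 ^ a, 2 ^ (a + Λ)]`, at the scale `2 ^ k`, there is a deterministic pattern of `z`
unit dislocations (each of the size of the width `w (2 ^ a)`) whose response is at most `A`, off an event of a probability at most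
`exp (- (2 ^ (a + Λ)) ^ c)`.

`winE`: in every long window in which `log w` and `log E` are almost linear, with the slopes `ν`, `χ`: `2 χ ≤ ν + δ` or
`χ ≤ 2 ν - 1 + δ`.
-/

namespace Pool.Agent.W_7d29a1_Z57

open Real

/-- The interface: base, step, top. -/
structure IfaceE (w E : ℕ → ℝ) (G : ℝ → ℕ → ℕ → ℕ → ℕ → ℝ → Prop) : Prop where
  mono : ∀ {c c' : ℝ} {a Λ k z : ℕ} {A A' : ℝ}, 0 < c' → c' ≤ c → A ≤ A' → G c a Λ k z A → G c' a Λ k z A'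
  base : ∀ κ e : ℝ, 0 < κ → 0 < e → ∃ c : ℝ, 0 < c ∧ ∃ a₀ : ℕ, ∀ a Λ x : ℕ, a₀ ≤ a → κ * a ≤ Λ → Λ ≤ a → x ≤ Λ →
    G c a Λ (a + x) 1 ((2 : ℝ) ^ (e * Λ) * E (2 ^ a))
  step : ∀ κ c e : ℝ, 0 < κ → 0 < c → 0 < e → ∃ c' : ℝ, 0 < c' ∧ ∃ a₀ : ℕ, ∀ a Λ x y z n : ℕ, ∀ A : ℝ, a₀ ≤ a → κ * a ≤ Λ →
    Λ ≤ a → x ≤ Λ → κ * Λ ≤ y → κ * Λ ≤ (x : ℝ) - y → 1 ≤ z → (z : ℝ) ≤ (2 : ℝ) ^ (y : ℝ) → E (2 ^ a) ≤ A →
    A ≤ E (2 ^ a) * (2 : ℝ) ^ (Λ : ℝ) → 1 ≤ n → (2 : ℝ) ^ (e * Λ) * n ≤ (2 : ℝ) ^ ((x : ℝ) - y) → (n : ℝ) * z ≤ (2 : ℝ) ^ (x : ℝ) →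
    (2 : ℝ) ^ (e * Λ) * (z * w (2 ^ a)) ≤ w (2 ^ (a + y)) →
    (2 : ℝ) ^ (e * Λ) * (z * (w (2 ^ a) * E (2 ^ (a + y)))) ≤ A * w (2 ^ (a + y)) →
    (2 : ℝ) ^ (e * Λ) * (n * z * w (2 ^ a)) ≤ w (2 ^ (a + x)) → G c a Λ (a + y) z A →
    G c' a Λ (a + x) (n * z) ((2 : ℝ) ^ (e * Λ) * (n / (2 : ℝ) ^ ((x : ℝ) - y) * (E (2 ^ (a + x)) +
      (2 : ℝ) ^ (((x : ℝ) - y) / 2) * A + (2 : ℝ) ^ ((x : ℝ) - y) * (A ^ 2 / E (2 ^ (a + y)))) + (n : ℝ) ^ (1 / 2 : ℝ) * A))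
  top : ∀ κ c e : ℝ, 0 < κ → 0 < c → 0 < e → ∃ a₀ : ℕ, ∀ a Λ z : ℕ, ∀ A : ℝ, a₀ ≤ a → κ * a ≤ Λ → Λ ≤ a → 1 ≤ z →
    E (2 ^ a) ≤ A → (2 : ℝ) ^ (e * Λ) * (z * w (2 ^ a)) ≤ w (2 ^ (a + Λ)) → G c a Λ (a + Λ) z A →
    E (2 ^ (a + Λ)) * (z * w (2 ^ a)) ≤ (2 : ℝ) ^ (e * Λ) * (w (2 ^ (a + Λ)) * A)

/-- An almost linear window with the slopes `ν`, `χ`. -/
structure Win (w E : ℕ → ℝ) (ε : ℝ) (a Λ : ℕ) (ν χ : ℝ) : Prop where
  w0 : 0 < w (2 ^ a)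
  E0 : 0 < E (2 ^ a)
  wu : ∀ t : ℕ, t ≤ Λ → w (2 ^ (a + t)) ≤ w (2 ^ a) * (2 : ℝ) ^ (ν * t + ε * Λ)
  wl : ∀ t : ℕ, t ≤ Λ → w (2 ^ a) * (2 : ℝ) ^ (ν * t - ε * Λ) ≤ w (2 ^ (a + t))
  Eu : ∀ t : ℕ, t ≤ Λ → E (2 ^ (a + t)) ≤ E (2 ^ a) * (2 : ℝ) ^ (χ * t + ε * Λ)
  El : ∀ t : ℕ, t ≤ Λ → E (2 ^ a) * (2 : ℝ) ^ (χ * t - ε * Λ) ≤ E (2 ^ (a + t))

/-- The response property of the exponent `σ` in a window. -/
def RespE (E : ℕ → ℝ) (G : ℝ → ℕ → ℕ → ℕ → ℕ → ℝ → Prop) (c σ η : ℝ) (a Λ : ℕ) : Prop :=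
  ∀ x : ℕ, x ≤ Λ → ∃ z : ℕ, 1 ≤ z ∧ (2 : ℝ) ^ (2 * σ * x - η * Λ) ≤ z ∧ (z : ℝ) ≤ (2 : ℝ) ^ (2 * σ * x) ∧
    G c a Λ (a + x) z (E (2 ^ a) * (2 : ℝ) ^ (σ * x + η * Λ))

theorem p2 (u v : ℝ) : (2 : ℝ) ^ u * (2 : ℝ) ^ v = (2 : ℝ) ^ (u + v) := (Real.rpow_add two_pos u v).symm

theorem p2pos (u : ℝ) : (0 : ℝ) < (2 : ℝ) ^ u := Real.rpow_pos_of_pos two_pos u

theorem p2mono {u v : ℝ} (h : u ≤ v) : (2 : ℝ) ^ u ≤ (2 : ℝ) ^ v := Real.rpow_le_rpow_of_exponent_le one_le_two h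

theorem p2le {u v : ℝ} (h : (2 : ℝ) ^ u ≤ (2 : ℝ) ^ v) : u ≤ v := (Real.rpow_le_rpow_left_iff one_lt_two).1 h

theorem p2one {u : ℝ} (h : 0 ≤ u) : 1 ≤ (2 : ℝ) ^ u := Real.one_le_rpow one_le_two h

variable {w E : ℕ → ℝ} {G : ℝ → ℕ → ℕ → ℕ → ℕ → ℝ → Prop}

/-- THE TOP: `σ ≤ ν - χ` up to the errors. -/
theorem top_use (hI : IfaceE w E G) {κ c e : ℝ} (hκ : 0 < κ) (hc : 0 < c) (he : 0 < e) :
    ∃ a₀ : ℕ, ∀ a Λ : ℕ, a₀ ≤ a → κ * a ≤ Λ → Λ ≤ a → 1 ≤ Λ → ∀ ν χ ε σ η : ℝ, Win w E ε a Λ ν χ → 0 ≤ σ → 0 ≤ η →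
      2 * σ + e + ε ≤ ν → RespE E G c σ η a Λ → σ ≤ ν - χ + (e + 2 * ε + 2 * η) := by
  obtain ⟨a₀, h⟩ := hI.top κ c e hκ hc he
  refine ⟨a₀, fun a Λ ha h1 h2 hΛ ν χ ε σ η hW hσ hη hs hR => ?_⟩
  obtain ⟨z, hz, hz1, hz2, hG⟩ := hR Λ le_rfl
  have hΛ0 : (0 : ℝ) < Λ := by exact_mod_cast hΛ
  have w0 := hW.w0
  have E0 := hW.E0
  have hz0 : (0 : ℝ) < z := by exact_mod_cast hz
  have hA : E (2 ^ a) ≤ E (2 ^ a) * (2 : ℝ) ^ (σ * Λ + η * Λ) :=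
    le_mul_of_one_le_right E0.le (p2one (by positivity))
  have hc1 : (2 : ℝ) ^ (e * Λ) * (z * w (2 ^ a)) ≤ w (2 ^ (a + Λ)) := by
    refine le_trans ?_ (hW.wl Λ le_rfl)
    have k1 : (2 : ℝ) ^ (e * Λ) * z ≤ (2 : ℝ) ^ (ν * Λ - ε * Λ) := by
      refine (mul_le_mul_of_nonneg_left hz2 (p2pos _).le).trans ?_
      rw [p2]
      refine p2mono ?_
      nlinarith
    calc (2 : ℝ) ^ (e * Λ) * (z * w (2 ^ a)) = w (2 ^ a) * ((2 : ℝ) ^ (e * Λ) * z) := by ring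
      _ ≤ _ := mul_le_mul_of_nonneg_left k1 w0.le
  have key := h a Λ z _ ha h1 h2 hz hA hc1 hG
  have k2 : E (2 ^ a) * (2 : ℝ) ^ (χ * Λ - ε * Λ) * ((2 : ℝ) ^ (2 * σ * Λ - η * Λ) * w (2 ^ a)) ≤
      (2 : ℝ) ^ (e * Λ) * (w (2 ^ a) * (2 : ℝ) ^ (ν * Λ + ε * Λ) * (E (2 ^ a) * (2 : ℝ) ^ (σ * Λ + η * Λ))) := by
    refine le_trans ?_ (key.trans ?_)
    · refine mul_le_mul (hW.El Λ le_rfl) (mul_le_mul_of_nonneg_right hz1 w0.le) (mul_nonneg (p2pos _).le w0.le) ?_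
      exact le_trans (mul_nonneg E0.le (p2pos _).le) (hW.El Λ le_rfl)
    · refine mul_le_mul_of_nonneg_left ?_ (p2pos _).le
      exact mul_le_mul_of_nonneg_right (hW.wu Λ le_rfl) (mul_nonneg E0.le (p2pos _).le)
  have k3 : (2 : ℝ) ^ ((χ * Λ - ε * Λ) + (2 * σ * Λ - η * Λ)) ≤
      (2 : ℝ) ^ ((e * Λ) + ((ν * Λ + ε * Λ) + (σ * Λ + η * Λ))) := by
    rw [← p2, ← p2, ← p2]
    have hp : 0 < E (2 ^ a) * w (2 ^ a) := mul_pos E0 w0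
    refine le_of_mul_le_mul_left ?_ hp
    calc E (2 ^ a) * w (2 ^ a) * ((2 : ℝ) ^ (χ * Λ - ε * Λ) * (2 : ℝ) ^ (2 * σ * Λ - η * Λ)) =
        E (2 ^ a) * (2 : ℝ) ^ (χ * Λ - ε * Λ) * ((2 : ℝ) ^ (2 * σ * Λ - η * Λ) * w (2 ^ a)) := by ring
      _ ≤ _ := k2
      _ = _ := by ring
  have k4 := p2le k3
  have k5 : (σ - (ν - χ + (e + 2 * ε + 2 * η))) * Λ ≤ 0 := by linarith
  by_contra hcon
  push Not at hcon
  have : 0 < (σ - (ν - χ + (e + 2 * ε + 2 * η))) * Λ := mul_pos (by linarith) hΛ0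
  linarith

/-- The numbers of one step: the ratio `b` of the logarithms of the scales. -/
theorem nums {δ ν χ σ s γ : ℝ} (hδ : 0 < δ) (hδ1 : δ ≤ 1) (h1 : ν + δ ≤ 2 * χ) (h2 : 2 * ν - 1 + δ ≤ χ) (hσ : 0 ≤ σ)
    (hσ1 : σ ≤ ν - χ + s) (hs : s ≤ δ / 16) (hγ : 0 ≤ γ) (hγ1 : γ ≤ δ ^ 2 / 8) :
    ∃ b : ℝ, δ / 4 ≤ b ∧ b ≤ 1 - δ / 4 ∧ σ + γ ≤ b * χ ∧ b * (1 - 2 * σ) = 1 - χ - b * χ ∧ δ / 2 ≤ ν - 2 * (σ + γ) ∧
      σ + γ ≤ 1 / 2 ∧ 0 < χ ∧ χ ≤ 1 ∧ b * χ ≤ χ - δ ^ 2 / 2 := by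
  have hδ2 : δ ^ 2 ≤ δ := by nlinarith
  have u1 : 15 * δ / 16 ≤ χ - σ := by linarith
  have u2 : 7 * δ / 8 ≤ 1 - χ - 2 * σ := by linarith
  have hχ0 : 0 < χ := by linarith
  have hχ1 : χ ≤ 1 := by linarith
  have hD0 : 0 < 1 - 2 * σ + χ := by linarith
  have hD2 : 1 - 2 * σ + χ ≤ 2 := by linarith
  have hbD : (1 - χ) / (1 - 2 * σ + χ) * (1 - 2 * σ + χ) = 1 - χ := div_mul_cancel₀ _ hD0.ne'
  obtain ⟨b, hb⟩ : ∃ b : ℝ, b = (1 - χ) / (1 - 2 * σ + χ) := ⟨_, rfl⟩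
  rw [← hb] at hbD
  have b1 : 7 * δ / 16 ≤ b := by
    rw [hb, le_div_iff₀ hD0]
    have : 7 * δ / 16 * (1 - 2 * σ + χ) ≤ 7 * δ / 16 * 2 := mul_le_mul_of_nonneg_left hD2 (by positivity)
    linarith
  have b2 : b ≤ 1 - 15 * δ / 16 := by
    rw [hb, div_le_iff₀ hD0]
    have : 15 * δ / 16 * (1 - 2 * σ + χ) ≤ 15 * δ / 16 * 2 := mul_le_mul_of_nonneg_left hD2 (by positivity)
    nlinarith
  have b3 : σ + δ ^ 2 / 8 ≤ b * χ := by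
    have k1 : (b * χ - σ) * (1 - 2 * σ + χ) = (χ - σ) * (1 - χ - 2 * σ) := by
      have : b * χ * (1 - 2 * σ + χ) = χ * (1 - χ) := by rw [mul_right_comm, hbD]; ring
      rw [sub_mul, this]
      ring
    have k2 : 15 * δ / 16 * (7 * δ / 8) ≤ (χ - σ) * (1 - χ - 2 * σ) := mul_le_mul u1 u2 (by positivity) (by linarith)
    have k3 : δ ^ 2 / 8 * (1 - 2 * σ + χ) ≤ δ ^ 2 / 8 * 2 := mul_le_mul_of_nonneg_left hD2 (by positivity)
    have k4 : δ ^ 2 / 8 * (1 - 2 * σ + χ) ≤ (b * χ - σ) * (1 - 2 * σ + χ) := by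
      rw [k1]
      nlinarith
    have k5 := le_of_mul_le_mul_right k4 hD0
    linarith
  refine ⟨b, by linarith, by linarith, by linarith, by linarith, by linarith, by linarith, hχ0, hχ1, ?_⟩
  have k1 : 15 * δ / 16 * (15 * δ / 16) ≤ χ * (1 - b) := mul_le_mul (by linarith) (by linarith) (by positivity) hχ0.le
  nlinarith

/-- ONE STEP: `σ ↦ σ + γ`. -/
theorem step_use (hI : IfaceE w E G) {κ c δ η0 : ℝ} (hκ : 0 < κ) (hc : 0 < c) (hδ : 0 < δ) (hδ1 : δ ≤ 1) (hη0 : 0 < η0) :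
    ∃ c' : ℝ, 0 < c' ∧ ∃ a₀ : ℕ, ∀ a Λ : ℕ, a₀ ≤ a → κ * a ≤ Λ → Λ ≤ a → ∀ ν χ σ η γ : ℝ, Win w E η0 a Λ ν χ →
      ν + δ ≤ 2 * χ → 2 * ν - 1 + δ ≤ χ → 0 ≤ σ → 8 * η0 ≤ η → 5 * η ≤ δ / 16 → σ ≤ ν - χ + 5 * η → 0 ≤ γ → γ ≤ δ ^ 2 / 8 →
      RespE E G c σ η a Λ → RespE E G c' (σ + γ) (32 * η / δ ^ 2) a Λ := by
  obtain ⟨cb, hcb, ab, hb⟩ := hI.base κ η0 hκ hη0
  obtain ⟨κ', hκ'⟩ : ∃ κ' : ℝ, κ' = min κ (η0 / 2) := ⟨_, rfl⟩
  have hκ'0 : 0 < κ' := by rw [hκ']; exact lt_min hκ (by positivity)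
  have hκ'1 : κ' ≤ κ := by rw [hκ']; exact min_le_left _ _
  have hκ'2 : κ' ≤ η0 / 2 := by rw [hκ']; exact min_le_right _ _
  obtain ⟨cs, hcs, as, hst⟩ := hI.step κ' c η0 hκ'0 hc hη0
  obtain ⟨a1, ha1⟩ : ∃ a1 : ℕ, 4 / (η0 * κ) < a1 := exists_nat_gt _
  refine ⟨min cb cs, lt_min hcb hcs, ab + as + a1, fun a Λ ha hΛ1 hΛ2 ν χ σ η γ hW h1 h2 hσ hη8 hη5 hσ5 hγ hγ1 hR => ?_⟩
  have hη : η0 ≤ η := by linarith
  have w0 := hW.w0
  have E0 := hW.E0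
  have haΛ : 4 ≤ η0 * Λ := by
    have k1 : (a1 : ℝ) ≤ a := by
      have : a1 ≤ a := by omega
      exact_mod_cast this
    have k2 : 4 < η0 * κ * a1 := by
      rw [div_lt_iff₀ (by positivity)] at ha1
      linarith
    have k3 : η0 * (κ * a1) ≤ η0 * Λ :=
      mul_le_mul_of_nonneg_left ((mul_le_mul_of_nonneg_left k1 hκ.le).trans hΛ1) hη0.le
    linarith
  have hΛ0 : (0 : ℝ) < Λ := by
    by_contra hcon
    push Not at hcon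
    have := mul_nonpos_of_nonneg_of_nonpos hη0.le hcon
    linarith
  have hη' : 0 < η := lt_of_lt_of_le hη0 hη
  have hηΛ : η0 * Λ ≤ η * Λ := mul_le_mul_of_nonneg_right hη hΛ0.le
  have hηΛ8 : 8 * (η0 * Λ) ≤ η * Λ := by
    have := mul_le_mul_of_nonneg_right hη8 hΛ0.le
    linarith only [this]
  obtain ⟨b, hb1, hb2, hb3, hb4, hb5, hb6, hχ0, hχ1, hb7⟩ := nums hδ hδ1 h1 h2 hσ hσ5 hη5 hγ hγ1
  obtain ⟨σ', hσ'⟩ : ∃ σ' : ℝ, σ' = σ + γ := ⟨_, rfl⟩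
  rw [← hσ'] at hb3 hb5 hb6 ⊢
  have hσσ' : σ ≤ σ' := by linarith
  have hσ'0 : 0 ≤ σ' := by linarith
  have hδ2 : 0 < δ ^ 2 := by positivity
  have hδ21 : δ ^ 2 ≤ 1 := pow_le_one₀ hδ.le hδ1
  have hδδ : δ ^ 2 ≤ δ := by
    have := mul_le_mul_of_nonneg_left hδ1 hδ.le
    linarith only [this, sq δ]
  obtain ⟨η', hη''⟩ : ∃ η' : ℝ, η' = 32 * η / δ ^ 2 := ⟨_, rfl⟩
  rw [← hη'']
  have hη'δ : δ ^ 2 * η' = 32 * η := by rw [hη'']; field_simp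
  have hη'0 : 0 < η' := by rw [hη'']; positivity
  have hη'32 : 32 * η ≤ η' := by
    rw [← hη'δ]
    exact mul_le_of_le_one_left hη'0.le hδ21
  have hη'Λ : 32 * (η * Λ) ≤ η' * Λ := by
    have := mul_le_mul_of_nonneg_right hη'32 hΛ0.le
    linarith only [this]
  intro x hx
  have hxΛ : (x : ℝ) ≤ Λ := by exact_mod_cast hx
  have hx0 : (0 : ℝ) ≤ x := Nat.cast_nonneg _
  rcases le_or_gt (x : ℝ) (η' / 8 * Λ) with hxs | hxs
  · -- the base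
    have hbx := hb a Λ x (by omega) hΛ1 hΛ2 hx
    have k1 : 2 * σ' * x ≤ x := by
      have := mul_le_mul_of_nonneg_right hb6 hx0
      linarith only [this]
    refine ⟨1, le_rfl, ?_, ?_, hI.mono (lt_min hcb hcs) (min_le_left _ _) ?_ hbx⟩
    · rw [Nat.cast_one]
      refine Real.rpow_le_one_of_one_le_of_nonpos one_le_two ?_
      have : 0 ≤ η' * Λ := mul_nonneg hη'0.le hΛ0.le
      linarith only [k1, hxs, this]
    · rw [Nat.cast_one]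
      exact p2one (mul_nonneg (mul_nonneg zero_le_two hσ'0) hx0)
    · rw [mul_comm]
      refine mul_le_mul_of_nonneg_left (p2mono ?_) E0.le
      have : 0 ≤ σ' * x := mul_nonneg hσ'0 hx0
      linarith only [this, hηΛ, hη'Λ, mul_pos hη' hΛ0]
  · -- the step
    obtain ⟨y, hy⟩ : ∃ y : ℕ, y = ⌊b * (x : ℝ)⌋₊ := ⟨_, rfl⟩
    have hbx0 : 0 ≤ b * (x : ℝ) := mul_nonneg (by linarith) hx0
    have hy1 : (y : ℝ) ≤ b * x := by rw [hy]; exact Nat.floor_le hbx0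
    have hy2 : b * x < y + 1 := by rw [hy]; exact Nat.lt_floor_add_one _
    have hy0 : (0 : ℝ) ≤ y := Nat.cast_nonneg _
    have hyx : (y : ℝ) ≤ x := hy1.trans (mul_le_of_le_one_left hx0 (by linarith only [hb2, hδ]))
    have hyΛ : y ≤ Λ := by
      have : (y : ℝ) ≤ Λ := hyx.trans hxΛ
      exact_mod_cast this
    have hyΛ' : (y : ℝ) ≤ Λ := by exact_mod_cast hyΛ
    obtain ⟨z, hz1, hz2, hz3, hG⟩ := hR y hyΛ
    have hz0 : (0 : ℝ) < z := by exact_mod_cast hz1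
    -- the products
    have g1 : σ' * x ≤ b * χ * x := mul_le_mul_of_nonneg_right hb3 hx0
    have g2 : y * (1 - 2 * σ) ≤ b * x * (1 - 2 * σ) := mul_le_mul_of_nonneg_right hy1 (by linarith)
    have g3 : b * x * (1 - 2 * σ) = x - χ * x - b * χ * x := by linear_combination (x : ℝ) * hb4
    have g4 : χ * (b * x) ≤ χ * y + χ := by
      have := mul_le_mul_of_nonneg_left hy2.le hχ0.le
      linarith only [this]
    have g5 : b * χ * x ≤ χ * x - δ ^ 2 / 2 * x := by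
      have := mul_le_mul_of_nonneg_right hb7 hx0
      linarith only [this]
    have g6 : 2 * (η * Λ) ≤ δ ^ 2 / 2 * x := by
      have k1 := mul_le_mul_of_nonneg_left hxs.le (by positivity : 0 ≤ δ ^ 2 / 2)
      have k2 : δ ^ 2 / 2 * (η' / 8 * Λ) = 2 * (η * Λ) := by linear_combination (Λ : ℝ) / 16 * hη'δ
      linarith
    have g7 : σ * y ≤ (ν - χ + 5 * η) * y := mul_le_mul_of_nonneg_right hσ5 hy0
    have g8 : η * y ≤ η * Λ := mul_le_mul_of_nonneg_left hyΛ' hη'.le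
    have g9 : σ * y ≤ σ' * x := mul_le_mul hσσ' hyx hy0 hσ'0
    have g10 : 2 * (η * Λ) ≤ (ν - 2 * σ') * x := by
      have k1 : δ / 2 * x ≤ (ν - 2 * σ') * x := mul_le_mul_of_nonneg_right hb5 hx0
      have k2 : δ ^ 2 / 2 * x ≤ δ / 2 * x := mul_le_mul_of_nonneg_right (by linarith only [hδδ]) hx0
      linarith
    have g11 : δ / 4 * x ≤ b * x := mul_le_mul_of_nonneg_right hb1 hx0
    have g12 : δ / 4 * x ≤ (1 - b) * x := mul_le_mul_of_nonneg_right (by linarith) hx0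
    have g13 : η * Λ ≤ δ / 4 * x := by
      have k2 : δ ^ 2 / 2 * x ≤ δ / 2 * x := mul_le_mul_of_nonneg_right (by linarith only [hδδ]) hx0
      linarith
    have g14 : η0 * Λ + 2 * σ * y ≤ ν * y - η0 * Λ := by
      have k1 : δ / 2 * y ≤ (ν - 2 * σ) * y := mul_le_mul_of_nonneg_right (by linarith only [hb5, hσσ']) hy0
      have k2 : δ / 2 * (b * x) ≤ δ / 2 * (y + 1) := mul_le_mul_of_nonneg_left hy2.le (by positivity)
      have k3 : δ / 2 * (δ / 4 * x) ≤ δ / 2 * (b * x) := mul_le_mul_of_nonneg_left g11 (by positivity)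
      have k4 : δ / 2 * (δ / 4 * x) = δ ^ 2 / 2 * x / 4 := by ring
      linarith only [k1, k2, k3, k4, g6, hηΛ8, haΛ, hδ1]
    -- the number of the blocks
    obtain ⟨u, hu⟩ : ∃ u : ℝ, u = (2 : ℝ) ^ (2 * σ' * x) / z := ⟨_, rfl⟩
    have huz : u * z = (2 : ℝ) ^ (2 * σ' * x) := by rw [hu]; exact div_mul_cancel₀ _ hz0.ne'
    have hu1 : 1 ≤ u := by
      rw [hu, le_div_iff₀ hz0, one_mul]
      exact hz3.trans (p2mono (by linarith))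
    obtain ⟨N, hN⟩ : ∃ N : ℝ, N = 2 * σ' * x - 2 * σ * y + η * Λ := ⟨_, rfl⟩
    have huN : u ≤ (2 : ℝ) ^ N := by
      rw [hu, div_le_iff₀ hz0]
      have k1 := mul_le_mul_of_nonneg_left hz2 (p2pos N).le
      rw [p2] at k1
      have k2 : N + (2 * σ * y - η * Λ) = 2 * σ' * x := by rw [hN]; ring
      rw [k2] at k1
      exact k1
    have hNxy : N + η * Λ ≤ (x : ℝ) - y := by rw [hN]; linarith
    obtain ⟨n, hn⟩ : ∃ n : ℕ, n = ⌊u⌋₊ := ⟨_, rfl⟩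
    have hn1 : 1 ≤ n := by rw [hn]; exact Nat.one_le_floor_iff _ |>.2 hu1
    have hnu : (n : ℝ) ≤ u := by rw [hn]; exact Nat.floor_le (by linarith)
    have hun : u < n + 1 := by rw [hn]; exact Nat.lt_floor_add_one _
    have hn1' : (1 : ℝ) ≤ n := by exact_mod_cast hn1
    have hu2n : u ≤ 2 * n := by linarith
    have hn0 : (0 : ℝ) < n := by linarith
    have hnN : (n : ℝ) ≤ (2 : ℝ) ^ N := hnu.trans huN
    have hnz : (n : ℝ) * z ≤ (2 : ℝ) ^ (2 * σ' * x) := by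
      rw [← huz]
      exact mul_le_mul_of_nonneg_right hnu hz0.le
    obtain ⟨A, hA⟩ : ∃ A : ℝ, A = E (2 ^ a) * (2 : ℝ) ^ (σ * y + 8 * (η * Λ)) := ⟨_, rfl⟩
    have hσy : 0 ≤ σ * y := mul_nonneg hσ hy0
    have hηΛ0 : 0 < η * Λ := mul_pos hη' hΛ0
    have hEA : E (2 ^ a) ≤ A := by
      rw [hA]
      exact le_mul_of_one_le_right E0.le (p2one (by linarith))
    have hA0 : 0 < A := lt_of_lt_of_le E0 hEA
    have hGA : G c a Λ (a + y) z A := hI.mono hc le_rfl (by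
      rw [hA]
      exact mul_le_mul_of_nonneg_left (p2mono (by linarith)) E0.le) hG
    have hEt := hW.El y hyΛ
    have hEtu := hW.Eu y hyΛ
    have hEt0 : 0 < E (2 ^ (a + y)) := lt_of_lt_of_le (mul_pos E0 (p2pos _)) hEt
    have hwt := hW.wl y hyΛ
    have hwR := hW.wl x hx
    have hER := hW.Eu x hx
    have hout := hst a Λ x y z n A (by omega) (by
      refine le_trans ?_ hΛ1
      exact mul_le_mul_of_nonneg_right hκ'1 (Nat.cast_nonneg _)) hΛ2 hx (by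
        have k1 : κ' * Λ ≤ η0 / 2 * Λ := mul_le_mul_of_nonneg_right hκ'2 hΛ0.le
        linarith) (by
        have k1 : κ' * Λ ≤ η0 / 2 * Λ := mul_le_mul_of_nonneg_right hκ'2 hΛ0.le
        linarith) hz1 (hz3.trans (p2mono (by linarith only [hσσ', mul_le_mul_of_nonneg_right (hσσ'.trans hb6) hy0]))) hEA (by
          rw [hA]
          refine mul_le_mul_of_nonneg_left (p2mono ?_) E0.le
          have k1 : σ * y ≤ 1 / 2 * Λ := mul_le_mul (hσσ'.trans hb6) hyΛ' hy0 (by norm_num)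
          have k2 : 8 * η ≤ 1 / 2 := by linarith only [hη5, hδ1]
          have k3 := mul_le_mul_of_nonneg_right k2 hΛ0.le
          linarith only [k1, k3]) hn1 (by
          refine (mul_le_mul_of_nonneg_left hnN (p2pos _).le).trans ?_
          rw [p2]
          refine p2mono ?_
          linarith only [hNxy, hηΛ])
        (hnz.trans (p2mono (by linarith only [mul_le_mul_of_nonneg_right hb6 hx0]))) (by
        -- the size of the pattern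
        refine le_trans ?_ hwt
        have k1 : (2 : ℝ) ^ (η0 * Λ) * (z * w (2 ^ a)) ≤ (2 : ℝ) ^ (η0 * Λ) * ((2 : ℝ) ^ (2 * σ * y) * w (2 ^ a)) :=
          mul_le_mul_of_nonneg_left (mul_le_mul_of_nonneg_right hz3 w0.le) (p2pos _).le
        refine k1.trans (le_trans (le_of_eq ?_) (mul_le_mul_of_nonneg_left (p2mono g14) w0.le))
        rw [← p2 (η0 * Λ) _]
        ring) (by
        -- (R18)
        have k1 : (2 : ℝ) ^ (η0 * Λ) * (z * (w (2 ^ a) * E (2 ^ (a + y)))) ≤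
            (2 : ℝ) ^ (η0 * Λ) * ((2 : ℝ) ^ (2 * σ * y) * (w (2 ^ a) * (E (2 ^ a) * (2 : ℝ) ^ (χ * y + η0 * Λ)))) := by
          refine mul_le_mul_of_nonneg_left ?_ (p2pos _).le
          exact mul_le_mul hz3 (mul_le_mul_of_nonneg_left hEtu w0.le) (mul_nonneg w0.le hEt0.le) (p2pos _).le
        have k2 : A * (w (2 ^ a) * (2 : ℝ) ^ (ν * y - η0 * Λ)) ≤ A * w (2 ^ (a + y)) := mul_le_mul_of_nonneg_left hwt hA0.le
        refine k1.trans (le_trans ?_ k2)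
        have e1 : (2 : ℝ) ^ (η0 * Λ) * ((2 : ℝ) ^ (2 * σ * y) * (w (2 ^ a) * (E (2 ^ a) * (2 : ℝ) ^ (χ * y + η0 * Λ)))) =
            E (2 ^ a) * w (2 ^ a) * (2 : ℝ) ^ ((η0 * Λ) + ((2 * σ * y) + (χ * y + η0 * Λ))) := by
          rw [← p2 (η0 * Λ) _, ← p2 (2 * σ * y) _]
          ring
        have e2 : A * (w (2 ^ a) * (2 : ℝ) ^ (ν * y - η0 * Λ)) =
            E (2 ^ a) * w (2 ^ a) * (2 : ℝ) ^ ((σ * y + 8 * (η * Λ)) + (ν * y - η0 * Λ)) := by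
          rw [← p2 (σ * y + 8 * (η * Λ)) _, hA]
          ring
        rw [e1, e2]
        refine mul_le_mul_of_nonneg_left (p2mono ?_) (mul_pos E0 w0).le
        linarith) (by
        have k1 : (2 : ℝ) ^ (η0 * Λ) * (n * z * w (2 ^ a)) ≤
            (2 : ℝ) ^ (η0 * Λ) * ((2 : ℝ) ^ (2 * σ' * x) * w (2 ^ a)) :=
          mul_le_mul_of_nonneg_left (mul_le_mul_of_nonneg_right hnz w0.le) (p2pos _).le
        refine k1.trans (le_trans ?_ hwR)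
        have e1 : (2 : ℝ) ^ (η0 * Λ) * ((2 : ℝ) ^ (2 * σ' * x) * w (2 ^ a)) =
            w (2 ^ a) * (2 : ℝ) ^ ((η0 * Λ) + (2 * σ' * x)) := by
          rw [← p2 (η0 * Λ) _]
          ring
        rw [e1]
        refine mul_le_mul_of_nonneg_left (p2mono ?_) w0.le
        linarith) hGA
    refine ⟨n * z, Nat.mul_pos hn1 hz1 |> Nat.succ_le_of_lt, ?_, ?_, hI.mono (lt_min hcb hcs) (min_le_right _ _) ?_ hout⟩
    · push_cast
      have k1 : (2 : ℝ) ^ (2 * σ' * x - η' * Λ) * 2 ≤ (2 : ℝ) ^ (2 * σ' * x) := by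
        calc (2 : ℝ) ^ (2 * σ' * x - η' * Λ) * 2 = (2 : ℝ) ^ (2 * σ' * x - η' * Λ) * (2 : ℝ) ^ (1 : ℝ) := by
              rw [Real.rpow_one]
          _ = (2 : ℝ) ^ (2 * σ' * x - η' * Λ + 1) := p2 _ _
          _ ≤ _ := p2mono (by linarith)
      have k2 : u * z ≤ 2 * n * z := mul_le_mul_of_nonneg_right hu2n hz0.le
      rw [huz] at k2
      linarith
    · push_cast
      exact hnz
    · -- the response
      obtain ⟨F, hF⟩ : ∃ F : ℝ, F = E (2 ^ a) * (2 : ℝ) ^ (σ' * x + 18 * (η * Λ) + 1) := ⟨_, rfl⟩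
      have hnd : (n : ℝ) / (2 : ℝ) ^ ((x : ℝ) - y) ≤ (2 : ℝ) ^ (N - ((x : ℝ) - y)) := by
        rw [div_le_iff₀ (p2pos _), p2]
        have : N - ((x : ℝ) - y) + ((x : ℝ) - y) = N := by ring
        rw [this]
        exact hnN
      have t1 : (n : ℝ) / (2 : ℝ) ^ ((x : ℝ) - y) * E (2 ^ (a + x)) ≤ F := by
        have hERn : 0 ≤ E (2 ^ (a + x)) := le_trans (mul_pos E0 (p2pos _)).le (hW.El x hx)
        refine (mul_le_mul hnd hER hERn (p2pos _).le).trans ?_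
        have e1 : (2 : ℝ) ^ (N - ((x : ℝ) - y)) * (E (2 ^ a) * (2 : ℝ) ^ (χ * x + η0 * Λ)) =
            E (2 ^ a) * (2 : ℝ) ^ ((N - ((x : ℝ) - y)) + (χ * x + η0 * Λ)) := by
          rw [← p2 (N - ((x : ℝ) - y)) _]
          ring
        rw [e1, hF]
        refine mul_le_mul_of_nonneg_left (p2mono ?_) E0.le
        rw [hN]
        linarith
      have t2 : (n : ℝ) / (2 : ℝ) ^ ((x : ℝ) - y) * ((2 : ℝ) ^ (((x : ℝ) - y) / 2) * A) ≤ F := by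
        refine (mul_le_mul_of_nonneg_right hnd (mul_pos (p2pos _) hA0).le).trans ?_
        have e1 : (2 : ℝ) ^ (N - ((x : ℝ) - y)) * ((2 : ℝ) ^ (((x : ℝ) - y) / 2) * A) =
            E (2 ^ a) * (2 : ℝ) ^ ((N - ((x : ℝ) - y)) + ((((x : ℝ) - y) / 2) + (σ * y + 8 * (η * Λ)))) := by
          rw [← p2 (N - ((x : ℝ) - y)) _, ← p2 (((x : ℝ) - y) / 2) _, hA]
          ring
        rw [e1, hF]
        refine mul_le_mul_of_nonneg_left (p2mono ?_) E0.le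
        have : N / 2 = σ' * x - σ * y + η * Λ / 2 := by rw [hN]; ring
        linarith
      have t3 : (n : ℝ) / (2 : ℝ) ^ ((x : ℝ) - y) * ((2 : ℝ) ^ ((x : ℝ) - y) * (A ^ 2 / E (2 ^ (a + y)))) ≤ F := by
        have e0 : (n : ℝ) / (2 : ℝ) ^ ((x : ℝ) - y) * ((2 : ℝ) ^ ((x : ℝ) - y) * (A ^ 2 / E (2 ^ (a + y)))) =
            n * (A ^ 2 / E (2 ^ (a + y))) := by
          have := (p2pos ((x : ℝ) - y)).ne'
          field_simp
        rw [e0]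
        have k1 : A ^ 2 / E (2 ^ (a + y)) ≤ E (2 ^ a) * (2 : ℝ) ^ (2 * (σ * y + 8 * (η * Λ)) - (χ * y - η0 * Λ)) := by
          rw [div_le_iff₀ hEt0]
          have k2 : E (2 ^ a) * (2 : ℝ) ^ (2 * (σ * y + 8 * (η * Λ)) - (χ * y - η0 * Λ)) *
              (E (2 ^ a) * (2 : ℝ) ^ (χ * y - η0 * Λ)) ≤
              E (2 ^ a) * (2 : ℝ) ^ (2 * (σ * y + 8 * (η * Λ)) - (χ * y - η0 * Λ)) * E (2 ^ (a + y)) :=
            mul_le_mul_of_nonneg_left hEt (mul_pos E0 (p2pos _)).le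
          refine le_trans (le_of_eq ?_) k2
          have e2 : E (2 ^ a) * (2 : ℝ) ^ (2 * (σ * y + 8 * (η * Λ)) - (χ * y - η0 * Λ)) *
              (E (2 ^ a) * (2 : ℝ) ^ (χ * y - η0 * Λ)) =
              E (2 ^ a) ^ 2 * (2 : ℝ) ^ ((2 * (σ * y + 8 * (η * Λ)) - (χ * y - η0 * Λ)) + (χ * y - η0 * Λ)) := by
            rw [← p2]
            ring
          have e3 : A ^ 2 = E (2 ^ a) ^ 2 * (2 : ℝ) ^ ((σ * y + 8 * (η * Λ)) + (σ * y + 8 * (η * Λ))) := by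
            rw [← p2, hA]
            ring
          rw [e2, e3]
          congr 2
          ring
        refine (mul_le_mul hnN k1 (by positivity) (p2pos _).le).trans ?_
        have e1 : (2 : ℝ) ^ N * (E (2 ^ a) * (2 : ℝ) ^ (2 * (σ * y + 8 * (η * Λ)) - (χ * y - η0 * Λ))) =
            E (2 ^ a) * (2 : ℝ) ^ (N + (2 * (σ * y + 8 * (η * Λ)) - (χ * y - η0 * Λ))) := by
          rw [← p2]
          ring
        rw [e1, hF]
        refine mul_le_mul_of_nonneg_left (p2mono ?_) E0.le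
        rw [hN]
        linarith
      have t4 : (n : ℝ) ^ (1 / 2 : ℝ) * A ≤ F := by
        have k1 : (n : ℝ) ^ (1 / 2 : ℝ) ≤ (2 : ℝ) ^ (N / 2) := by
          have k2 := Real.rpow_le_rpow hn0.le hnN (by norm_num : (0 : ℝ) ≤ 1 / 2)
          rw [← Real.rpow_mul (by norm_num)] at k2
          refine k2.trans (le_of_eq ?_)
          congr 1
          ring
        refine (mul_le_mul_of_nonneg_right k1 hA0.le).trans ?_
        have e1 : (2 : ℝ) ^ (N / 2) * A = E (2 ^ a) * (2 : ℝ) ^ ((N / 2) + (σ * y + 8 * (η * Λ))) := by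
          rw [← p2, hA]
          ring
        rw [e1, hF]
        refine mul_le_mul_of_nonneg_left (p2mono ?_) E0.le
        have : N / 2 = σ' * x - σ * y + η * Λ / 2 := by rw [hN]; ring
        linarith
      have hF0 : 0 ≤ F := by rw [hF]; exact (mul_pos E0 (p2pos _)).le
      have hsum : (n : ℝ) / (2 : ℝ) ^ ((x : ℝ) - y) * (E (2 ^ (a + x)) + (2 : ℝ) ^ (((x : ℝ) - y) / 2) * A +
          (2 : ℝ) ^ ((x : ℝ) - y) * (A ^ 2 / E (2 ^ (a + y)))) + (n : ℝ) ^ (1 / 2 : ℝ) * A ≤ 4 * F := by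
        rw [mul_add, mul_add]
        linarith
      refine (mul_le_mul_of_nonneg_left hsum (p2pos _).le).trans ?_
      have e1 : (2 : ℝ) ^ (η0 * Λ) * (4 * F) =
          E (2 ^ a) * (2 : ℝ) ^ ((η0 * Λ) + ((2 : ℝ) + (σ' * x + 18 * (η * Λ) + 1))) := by
        have e2 : (2 : ℝ) ^ (2 : ℝ) = 4 := by norm_num
        rw [← p2, ← p2 2, e2, hF]
        ring
      rw [e1]
      refine mul_le_mul_of_nonneg_left (p2mono ?_) E0.le
      linarith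

end Pool.Agent.W_7d29a1_Z57
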