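import Pool.Agent.W_7d29a1_Z57.AlgE57b
import Pool.Agent.W_7d29a1_21z.Closing

/-!
STORM Z, SECOND STOREY: the end. From the window theorem and the relative strict Newman - Piza inequality: for `n ≥ m ^ (1 + η)`, in
logarithms, `w n / w m ≥ (n / m) ^ (1 / 2 + c')` and `(w n / w m) ^ (3 / 2) ≥ (n / m) ^ (1 / 2 + c') (E n / E m)`.
-/

namespace Pool.Agent.W_7d29a1_Z57

open Real Finset Filter Pool.Agent.W_7d29a1_21z

variable {w E : ℕ → ℝ} {G : ℝ → ℕ → ℕ → ℕ → ℕ → ℝ → Prop}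

/-- From logarithms to powers of two. -/
theorem of_log {u v x e : ℝ} (hu : 0 < u) (hv : 0 < v) (h : |Real.logb 2 v - Real.logb 2 u - x| ≤ e) :
    v ≤ u * (2 : ℝ) ^ (x + e) ∧ u * (2 : ℝ) ^ (x - e) ≤ v := by
  have h1 := abs_le.1 h
  have key : ∀ y : ℝ, 0 < y → y = (2 : ℝ) ^ (Real.logb 2 y) := fun y hy =>
    (Real.rpow_logb two_pos (by norm_num) hy).symm
  constructor
  · calc v = (2 : ℝ) ^ (Real.logb 2 v) := key v hv
      _ ≤ (2 : ℝ) ^ (Real.logb 2 u + (x + e)) := p2mono (by linarith [h1.2])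
      _ = (2 : ℝ) ^ (Real.logb 2 u) * (2 : ℝ) ^ (x + e) := (p2 _ _).symm
      _ = u * (2 : ℝ) ^ (x + e) := by rw [← key u hu]
  · calc u * (2 : ℝ) ^ (x - e) = (2 : ℝ) ^ (Real.logb 2 u) * (2 : ℝ) ^ (x - e) := by rw [← key u hu]
      _ = (2 : ℝ) ^ (Real.logb 2 u + (x - e)) := p2 _ _
      _ ≤ (2 : ℝ) ^ (Real.logb 2 v) := p2mono (by linarith [h1.1])
      _ = v := (key v hv).symm

/-- An almost linear window of the logarithms. -/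
theorem win_of {f g : ℕ → ℝ} (hwpos : ∀ n, 0 < w n) (hEpos : ∀ n, 0 < E n) (hf : f = fun k => Real.logb 2 (w (2 ^ k)))
    (hg : g = fun k => Real.logb 2 (E (2 ^ k))) {ε : ℝ} {a Λ : ℕ} {ν χ : ℝ}
    (h1 : ∀ t : ℕ, t ≤ Λ → |f (a + t) - f a - ν * t| ≤ ε * Λ) (h2 : ∀ t : ℕ, t ≤ Λ → |g (a + t) - g a - χ * t| ≤ ε * Λ) :
    Win w E ε a Λ ν χ := by
  subst hf
  subst hg
  exact ⟨hwpos _, hEpos _, fun t ht => (of_log (hwpos _) (hwpos _) (h1 t ht)).1,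
    fun t ht => (of_log (hwpos _) (hwpos _) (h1 t ht)).2, fun t ht => (of_log (hEpos _) (hEpos _) (h2 t ht)).1,
    fun t ht => (of_log (hEpos _) (hEpos _) (h2 t ht)).2⟩

/-- The slopes of a window. -/
theorem slopes (hI : IfaceE w E G) {f g : ℕ → ℝ} (hwpos : ∀ n, 0 < w n) (hEpos : ∀ n, 0 < E n)
    (hf : f = fun k => Real.logb 2 (w (2 ^ k))) (hg : g = fun k => Real.logb 2 (E (2 ^ k))) {n₁ : ℕ} {c K : ℝ} (hc : 0 < c)
    (hc1 : c ≤ 1 / 10) (hK : 0 ≤ K)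
    (hlo : ∀ s t : ℕ, n₁ ≤ s → s ≤ t → c * ((t : ℝ) - s) - K ≤ f t - f s)
    (hup : ∀ s t : ℕ, n₁ ≤ s → s ≤ t → f t - f s ≤ (1 - c) * ((t : ℝ) - s) + K)
    (hNP : ∀ s t : ℕ, n₁ ≤ s → s ≤ t → (1 + c) * ((t : ℝ) - s) - K ≤ (f t - f s) + 2 * (g t - g s)) :
    ∃ ε : ℝ, 0 < ε ∧ ∀ κ : ℝ, 0 < κ → ∃ a₀ : ℕ, ∀ a Λ : ℕ, a₀ ≤ a → κ * a ≤ Λ → Λ ≤ a → ∀ ν χ : ℝ,
      f (a + Λ) - f a = ν * Λ → g (a + Λ) - g a = χ * Λ →
      (∀ t : ℕ, t ≤ Λ → |f (a + t) - f a - ν * t| ≤ ε * Λ) → (∀ t : ℕ, t ≤ Λ → |g (a + t) - g a - χ * t| ≤ ε * Λ) →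
      1 / 2 + c / 4 ≤ ν ∧ 1 / 2 + c / 8 + χ ≤ 3 / 2 * ν := by
  obtain ⟨ε, hε, h⟩ := winE hI (δ := c / 4) (β := c / 2) (by positivity) (by linarith) (by positivity)
  refine ⟨ε, hε, fun κ hκ => ?_⟩
  obtain ⟨a₁, h1⟩ := h κ hκ
  obtain ⟨a₂, ha₂⟩ : ∃ a₂ : ℕ, 16 * (K + 1) / (c * κ) < a₂ := exists_nat_gt _
  refine ⟨a₁ + a₂ + n₁, fun a Λ ha hΛ1 hΛ2 ν χ hν hχ hfl hgl => ?_⟩
  have hKΛ : 16 * (K + 1) ≤ c * Λ := by
    rw [div_lt_iff₀ (by positivity)] at ha₂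
    have k1 : (a₂ : ℝ) ≤ a := by
      have : a₂ ≤ a := by omega
      exact_mod_cast this
    have k2 : c * (κ * a₂) ≤ c * Λ := mul_le_mul_of_nonneg_left ((mul_le_mul_of_nonneg_left k1 hκ.le).trans hΛ1) hc.le
    linarith
  have hΛ0 : (0 : ℝ) < Λ := by
    by_contra hcon
    push Not at hcon
    have := mul_nonpos_of_nonneg_of_nonpos hc.le hcon
    linarith
  have h3 : (((a + Λ : ℕ) : ℝ) - ((a : ℕ) : ℝ)) = Λ := by push_cast; ring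
  have l1 := hlo a (a + Λ) (by omega) (by omega)
  have l2 := hup a (a + Λ) (by omega) (by omega)
  have l3 := hNP a (a + Λ) (by omega) (by omega)
  rw [h3, hν] at l1 l2 l3
  rw [hχ] at l3
  have m1 : c - c / 16 ≤ ν := by
    refine le_of_mul_le_mul_right ?_ hΛ0
    linarith
  have m2 : ν ≤ 1 - c + c / 16 := by
    refine le_of_mul_le_mul_right ?_ hΛ0
    linarith
  have m3 : 1 + c - c / 16 ≤ ν + 2 * χ := by
    refine le_of_mul_le_mul_right ?_ hΛ0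
    linarith
  have key := h1 a Λ (by omega) hΛ1 hΛ2 ν χ (win_of hwpos hEpos hf hg hfl hgl) (by linarith)
  rcases key with key | key
  · exact ⟨by linarith, by linarith⟩
  · exact ⟨by linarith, by linarith⟩

/-- **THE END ON THE LOGARITHMIC SCALE.** -/
theorem endE_log (hI : IfaceE w E G) {f g : ℕ → ℝ} (hwpos : ∀ n, 0 < w n) (hEpos : ∀ n, 0 < E n)
    (hf : f = fun k => Real.logb 2 (w (2 ^ k))) (hg : g = fun k => Real.logb 2 (E (2 ^ k))) {n₁ : ℕ} {c K L : ℝ} (hc : 0 < c)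
    (hc1 : c ≤ 1 / 10) (hK : 0 ≤ K) (hL : 0 ≤ L) (hLf : LipFrom f L n₁) (hLg : LipFrom g L n₁)
    (hlo : ∀ s t : ℕ, n₁ ≤ s → s ≤ t → c * ((t : ℝ) - s) - K ≤ f t - f s)
    (hup : ∀ s t : ℕ, n₁ ≤ s → s ≤ t → f t - f s ≤ (1 - c) * ((t : ℝ) - s) + K)
    (hNP : ∀ s t : ℕ, n₁ ≤ s → s ≤ t → (1 + c) * ((t : ℝ) - s) - K ≤ (f t - f s) + 2 * (g t - g s)) :
    ∀ η : ℝ, 0 < η → ∃ t₁ : ℕ, ∀ s t : ℕ, t₁ ≤ s → (1 + η) * (s : ℝ) ≤ t →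
      (1 / 2 + c / 8) * ((t : ℝ) - s) ≤ f t - f s ∧
        (1 / 2 + c / 16) * ((t : ℝ) - s) + (g t - g s) ≤ 3 / 2 * (f t - f s) := by
  obtain ⟨ε, hε, h⟩ := slopes hI hwpos hEpos hf hg hc hc1 hK hlo hup hNP
  -- the slopes of a window, from the ends
  have lin : ∀ (u : ℕ → ℝ) (a Λ : ℕ) (e : ℝ), (0 : ℝ) < Λ → EpsLin u e a Λ →
      ∀ t : ℕ, t ≤ Λ → |u (a + t) - u a - (u (a + Λ) - u a) / Λ * t| ≤ e * Λ := by
    intro u a Λ e hΛ hu t ht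
    have h1 := hu t ht
    have e1 : (u (a + Λ) - u a) * ((t : ℝ) / (Λ : ℝ)) = (u (a + Λ) - u a) / Λ * t := by ring
    rwa [e1] at h1
  have pos : ∀ κ : ℝ, 0 < κ → ∀ a Λ : ℕ, 1 ≤ a → κ * a ≤ Λ → (0 : ℝ) < Λ := by
    intro κ hκ a Λ ha h1
    have h2 : (1 : ℝ) ≤ a := by exact_mod_cast ha
    have := mul_pos hκ (lt_of_lt_of_le one_pos h2)
    linarith
  -- (1)
  have A1 : ∀ δ : ℝ, 0 < δ → ∃ a₀ : ℕ, ∀ a : ℕ, a₀ ≤ a → ∀ Λ : ℕ, δ * a ≤ Λ → (Λ : ℝ) ≤ 1 * a →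
      EpsLin f ε a Λ → EpsLin g ε a Λ → (1 / 2 + c / 4) * (Λ : ℝ) ≤ f (a + Λ) - f a := by
    intro δ hδ
    obtain ⟨a₀, ha₀⟩ := h δ hδ
    refine ⟨a₀ + 1, fun a ha Λ h1 h2 hfl hgl => ?_⟩
    have hΛ0 := pos δ hδ a Λ (by omega) h1
    have hΛa : Λ ≤ a := by
      rw [one_mul] at h2
      exact_mod_cast h2
    have h3 := ha₀ a Λ (by omega) h1 hΛa ((f (a + Λ) - f a) / Λ) ((g (a + Λ) - g a) / Λ)
      (div_mul_cancel₀ _ hΛ0.ne').symm (div_mul_cancel₀ _ hΛ0.ne').symm (lin f a Λ ε hΛ0 hfl) (lin g a Λ ε hΛ0 hgl)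
    have h4 := mul_le_mul_of_nonneg_right h3.1 hΛ0.le
    rwa [div_mul_cancel₀ _ hΛ0.ne'] at h4
  -- (2)
  obtain ⟨F, hF⟩ : ∃ F : ℕ → ℝ, F = fun k => 3 / 2 * f k - 1 / 2 * (k : ℝ) - g k := ⟨_, rfl⟩
  have hLF : LipFrom F (3 * L + 1) n₁ := by
    intro s t hs hst
    have h1 := hLf s t hs hst
    have h2 := hLg s t hs hst
    have hst' : (s : ℝ) ≤ t := by exact_mod_cast hst
    have hd : 0 ≤ (t : ℝ) - s := by linarith
    rw [abs_le] at h1 h2 ⊢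
    have hLd : 0 ≤ L * ((t : ℝ) - s) := mul_nonneg hL hd
    rw [hF]
    simp only
    constructor <;> nlinarith
  have hLf' : LipFrom f (3 * L + 1) n₁ := by
    intro s t hs hst
    have h1 := hLf s t hs hst
    have hst' : (s : ℝ) ≤ t := by exact_mod_cast hst
    have hd : 0 ≤ (t : ℝ) - s := by linarith
    have hLd : 0 ≤ L * ((t : ℝ) - s) := mul_nonneg hL hd
    refine h1.trans ?_
    nlinarith
  have A2 : ∀ δ : ℝ, 0 < δ → ∃ a₀ : ℕ, ∀ a : ℕ, a₀ ≤ a → ∀ Λ : ℕ, δ * a ≤ Λ → (Λ : ℝ) ≤ 1 * a →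
      EpsLin F (ε / 4) a Λ → EpsLin f (ε / 4) a Λ → c / 8 * (Λ : ℝ) ≤ F (a + Λ) - F a := by
    intro δ hδ
    obtain ⟨a₀, ha₀⟩ := h δ hδ
    refine ⟨a₀ + 1, fun a ha Λ h1 h2 hFl hfl => ?_⟩
    have hΛ0 := pos δ hδ a Λ (by omega) h1
    have hΛa : Λ ≤ a := by
      rw [one_mul] at h2
      exact_mod_cast h2
    have hfl' := lin f a Λ (ε / 4) hΛ0 hfl
    have hFl' := lin F a Λ (ε / 4) hΛ0 hFl
    have hεΛ : 0 < ε * Λ := mul_pos hε hΛ0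
    have hdiv : (F (a + Λ) - F a) / Λ = 3 / 2 * ((f (a + Λ) - f a) / Λ) - 1 / 2 - (g (a + Λ) - g a) / Λ := by
      rw [hF]
      simp only
      push_cast
      field_simp
      ring
    have hgl' : ∀ t : ℕ, t ≤ Λ → |g (a + t) - g a - (g (a + Λ) - g a) / Λ * t| ≤ ε * Λ := by
      intro t ht
      have k1 := abs_le.1 (hfl' t ht)
      have k2 := abs_le.1 (hFl' t ht)
      rw [hdiv, hF] at k2
      simp only at k2
      push_cast at k2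
      rw [abs_le]
      constructor <;> nlinarith [k1.1, k1.2, k2.1, k2.2]
    have h3 := ha₀ a Λ (by omega) h1 hΛa ((f (a + Λ) - f a) / Λ) ((g (a + Λ) - g a) / Λ)
      (div_mul_cancel₀ _ hΛ0.ne').symm (div_mul_cancel₀ _ hΛ0.ne').symm
      (fun t ht => (hfl' t ht).trans (by linarith)) hgl'
    have h4 : c / 8 ≤ (F (a + Λ) - F a) / Λ := by
      rw [hdiv]
      linarith [h3.2]
    rwa [le_div_iff₀ hΛ0] at h4
  intro η hη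
  obtain ⟨t₁, ht₁⟩ := windowsPoly f g L n₁ hL hLf hLg ε (1 / 2 + c / 4) 1 hε one_pos A1 (min η (c / 16)) (lt_min hη (by positivity))
  obtain ⟨t₂, ht₂⟩ := windowsPoly F f (3 * L + 1) n₁ (by positivity) hLF hLf' (ε / 4) (c / 8) 1 (by positivity) one_pos A2
    (min η (c / 16)) (lt_min hη (by positivity))
  refine ⟨t₁ + t₂, fun s t hs hst => ?_⟩
  have hs0 : (0 : ℝ) ≤ s := Nat.cast_nonneg _
  have k0 : (1 + min η (c / 16)) * (s : ℝ) ≤ t := by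
    have : min η (c / 16) * (s : ℝ) ≤ η * s := mul_le_mul_of_nonneg_right (min_le_left _ _) hs0
    linarith
  have k1 : 0 ≤ (t : ℝ) - s := by
    have := mul_nonneg hη.le hs0
    linarith
  have k2 := min_le_right η (c / 16)
  have k3 := mul_le_mul_of_nonneg_right k2 k1
  have r1 := ht₁ s t (by omega) k0
  have r2 := ht₂ s t (by omega) k0
  rw [hF] at r2
  simp only at r2
  have k4 : 0 ≤ c * ((t : ℝ) - s) := mul_nonneg hc.le k1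
  constructor
  · nlinarith
  · nlinarith

end Pool.Agent.W_7d29a1_Z57
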