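import Pool.Agent.W_7d29a1_Z57.AlgE57d

/-!
STORM Z, SECOND STOREY: the end with the power superconcentration. From the window theorem (`2 χ ≤ ν` or `χ ≤ 2 ν - 1`), the relative
strict Newman - Piza inequality (`ν + 2 χ ≥ 1 + c`) and `χ ≤ (1 - c) / 2` in every window: `χ ≤ ν - 1 / 4 - c'`, so
`w n / w m ≥ (n / m) ^ (1 / 4 + c') (E n / E m)` for `n ≥ m ^ (1 + η)`.
-/

namespace Pool.Agent.W_7d29a1_Z57

open Real Finset Filter Pool.Agent.W_7d29a1_21z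

variable {w E : ℕ → ℝ} {G : ℝ → ℕ → ℕ → ℕ → ℕ → ℝ → Prop}

/-- The slopes of a window. -/
theorem slopesQ (hI : IfaceE w E G) {f g : ℕ → ℝ} (hwpos : ∀ n, 0 < w n) (hEpos : ∀ n, 0 < E n)
    (hf : f = fun k => Real.logb 2 (w (2 ^ k))) (hg : g = fun k => Real.logb 2 (E (2 ^ k))) {n₁ : ℕ} {c K : ℝ} (hc : 0 < c)
    (hc1 : c ≤ 1 / 10) (hK : 0 ≤ K)
    (hlo : ∀ s t : ℕ, n₁ ≤ s → s ≤ t → c * ((t : ℝ) - s) - K ≤ f t - f s)
    (hNP : ∀ s t : ℕ, n₁ ≤ s → s ≤ t → (1 + c) * ((t : ℝ) - s) - K ≤ (f t - f s) + 2 * (g t - g s))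
    (hSC : ∀ s t : ℕ, n₁ ≤ s → s ≤ t → g t - g s ≤ (1 - c) / 2 * ((t : ℝ) - s) + K) :
    ∃ ε : ℝ, 0 < ε ∧ ∀ κ : ℝ, 0 < κ → ∃ a₀ : ℕ, ∀ a Λ : ℕ, a₀ ≤ a → κ * a ≤ Λ → Λ ≤ a → ∀ ν χ : ℝ,
      f (a + Λ) - f a = ν * Λ → g (a + Λ) - g a = χ * Λ →
      (∀ t : ℕ, t ≤ Λ → |f (a + t) - f a - ν * t| ≤ ε * Λ) → (∀ t : ℕ, t ≤ Λ → |g (a + t) - g a - χ * t| ≤ ε * Λ) →
      1 / 4 + c / 8 + χ ≤ ν := by
  obtain ⟨ε, hε, h⟩ := winE hI (δ := c / 8) (β := c / 2) (by positivity) (by linarith) (by positivity)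
  refine ⟨ε, hε, fun κ hκ => ?_⟩
  obtain ⟨a₁, h1⟩ := h κ hκ
  obtain ⟨a₂, ha₂⟩ : ∃ a₂ : ℕ, 16 * (K + 1) / (c * κ) < a₂ := exists_nat_gt _
  refine ⟨a₁ + a₂ + n₁, fun a Λ ha hΛ1 hΛ2 ν χ hν hχ hfl hgl => ?_⟩
  have hKΛ : 16 * (K + 1) ≤ c * Λ := by
    rw [div_lt_iff₀ (by positivity)] at ha₂
    have k1 : (a₂ : ℝ) ≤ a := by
      have : a₂ ≤ a := by omega
      exact_mod_cast this
    have k2 : c * (κ * a₂) ≤ c * Λ := mul_le_mul_of_nonneg_left ((mul_le_mul_of_nonneg_left k1 hκ.le).trans hΛ1) hc.le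
    linarith
  have hΛ0 : (0 : ℝ) < Λ := by
    by_contra hcon
    push Not at hcon
    have := mul_nonpos_of_nonneg_of_nonpos hc.le hcon
    linarith
  have h3 : (((a + Λ : ℕ) : ℝ) - ((a : ℕ) : ℝ)) = Λ := by push_cast; ring
  have l1 := hlo a (a + Λ) (by omega) (by omega)
  have l2 := hSC a (a + Λ) (by omega) (by omega)
  have l3 := hNP a (a + Λ) (by omega) (by omega)
  rw [h3, hν] at l1 l3
  rw [h3] at l2
  rw [hχ] at l2 l3
  have m1 : c - c / 16 ≤ ν := by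
    refine le_of_mul_le_mul_right ?_ hΛ0
    linarith
  have m2 : χ ≤ (1 - c) / 2 + c / 16 := by
    refine le_of_mul_le_mul_right ?_ hΛ0
    linarith
  have m3 : 1 + c - c / 16 ≤ ν + 2 * χ := by
    refine le_of_mul_le_mul_right ?_ hΛ0
    linarith
  have key := h1 a Λ (by omega) hΛ1 hΛ2 ν χ (win_of hwpos hEpos hf hg hfl hgl) (by linarith)
  rcases key with key | key
  · linarith
  · linarith

/-- **THE END ON THE LOGARITHMIC SCALE**, with the power superconcentration. -/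
theorem endQ_log (hI : IfaceE w E G) {f g : ℕ → ℝ} (hwpos : ∀ n, 0 < w n) (hEpos : ∀ n, 0 < E n)
    (hf : f = fun k => Real.logb 2 (w (2 ^ k))) (hg : g = fun k => Real.logb 2 (E (2 ^ k))) {n₁ : ℕ} {c K L : ℝ} (hc : 0 < c)
    (hc1 : c ≤ 1 / 10) (hK : 0 ≤ K) (hL : 0 ≤ L) (hLf : LipFrom f L n₁) (hLg : LipFrom g L n₁)
    (hlo : ∀ s t : ℕ, n₁ ≤ s → s ≤ t → c * ((t : ℝ) - s) - K ≤ f t - f s)
    (hNP : ∀ s t : ℕ, n₁ ≤ s → s ≤ t → (1 + c) * ((t : ℝ) - s) - K ≤ (f t - f s) + 2 * (g t - g s))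
    (hSC : ∀ s t : ℕ, n₁ ≤ s → s ≤ t → g t - g s ≤ (1 - c) / 2 * ((t : ℝ) - s) + K) :
    ∀ η : ℝ, 0 < η → ∃ t₁ : ℕ, ∀ s t : ℕ, t₁ ≤ s → (1 + η) * (s : ℝ) ≤ t →
      (1 / 4 + c / 16) * ((t : ℝ) - s) + (g t - g s) ≤ f t - f s := by
  obtain ⟨ε, hε, h⟩ := slopesQ hI hwpos hEpos hf hg hc hc1 hK hlo hNP hSC
  -- the slopes of a window, from the ends
  have lin : ∀ (u : ℕ → ℝ) (a Λ : ℕ) (e : ℝ), (0 : ℝ) < Λ → EpsLin u e a Λ →
      ∀ t : ℕ, t ≤ Λ → |u (a + t) - u a - (u (a + Λ) - u a) / Λ * t| ≤ e * Λ := by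
    intro u a Λ e hΛ hu t ht
    have h1 := hu t ht
    have e1 : (u (a + Λ) - u a) * ((t : ℝ) / (Λ : ℝ)) = (u (a + Λ) - u a) / Λ * t := by ring
    rwa [e1] at h1
  have pos : ∀ κ : ℝ, 0 < κ → ∀ a Λ : ℕ, 1 ≤ a → κ * a ≤ Λ → (0 : ℝ) < Λ := by
    intro κ hκ a Λ ha h1
    have h2 : (1 : ℝ) ≤ a := by exact_mod_cast ha
    have := mul_pos hκ (lt_of_lt_of_le one_pos h2)
    linarith
  obtain ⟨F, hF⟩ : ∃ F : ℕ → ℝ, F = fun k => f k - 1 / 4 * (k : ℝ) - g k := ⟨_, rfl⟩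
  have hLF : LipFrom F (3 * L + 1) n₁ := by
    intro s t hs hst
    have h1 := hLf s t hs hst
    have h2 := hLg s t hs hst
    have hst' : (s : ℝ) ≤ t := by exact_mod_cast hst
    have hd : 0 ≤ (t : ℝ) - s := by linarith
    rw [abs_le] at h1 h2 ⊢
    have hLd : 0 ≤ L * ((t : ℝ) - s) := mul_nonneg hL hd
    rw [hF]
    simp only
    constructor <;> nlinarith
  have hLf' : LipFrom f (3 * L + 1) n₁ := by
    intro s t hs hst
    have h1 := hLf s t hs hst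
    have hst' : (s : ℝ) ≤ t := by exact_mod_cast hst
    have hd : 0 ≤ (t : ℝ) - s := by linarith
    have hLd : 0 ≤ L * ((t : ℝ) - s) := mul_nonneg hL hd
    refine h1.trans ?_
    nlinarith
  have A2 : ∀ δ : ℝ, 0 < δ → ∃ a₀ : ℕ, ∀ a : ℕ, a₀ ≤ a → ∀ Λ : ℕ, δ * a ≤ Λ → (Λ : ℝ) ≤ 1 * a →
      EpsLin F (ε / 4) a Λ → EpsLin f (ε / 4) a Λ → c / 8 * (Λ : ℝ) ≤ F (a + Λ) - F a := by
    intro δ hδ
    obtain ⟨a₀, ha₀⟩ := h δ hδ
    refine ⟨a₀ + 1, fun a ha Λ h1 h2 hFl hfl => ?_⟩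
    have hΛ0 := pos δ hδ a Λ (by omega) h1
    have hΛa : Λ ≤ a := by
      rw [one_mul] at h2
      exact_mod_cast h2
    have hfl' := lin f a Λ (ε / 4) hΛ0 hfl
    have hFl' := lin F a Λ (ε / 4) hΛ0 hFl
    have hεΛ : 0 < ε * Λ := mul_pos hε hΛ0
    have hdiv : (F (a + Λ) - F a) / Λ = (f (a + Λ) - f a) / Λ - 1 / 4 - (g (a + Λ) - g a) / Λ := by
      rw [hF]
      simp only
      push_cast
      field_simp
      ring
    have hgl' : ∀ t : ℕ, t ≤ Λ → |g (a + t) - g a - (g (a + Λ) - g a) / Λ * t| ≤ ε * Λ := by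
      intro t ht
      have k1 := abs_le.1 (hfl' t ht)
      have k2 := abs_le.1 (hFl' t ht)
      rw [hdiv, hF] at k2
      simp only at k2
      push_cast at k2
      rw [abs_le]
      constructor <;> nlinarith [k1.1, k1.2, k2.1, k2.2]
    have h3 := ha₀ a Λ (by omega) h1 hΛa ((f (a + Λ) - f a) / Λ) ((g (a + Λ) - g a) / Λ)
      (div_mul_cancel₀ _ hΛ0.ne').symm (div_mul_cancel₀ _ hΛ0.ne').symm
      (fun t ht => (hfl' t ht).trans (by linarith)) hgl'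
    have h4 : c / 8 ≤ (F (a + Λ) - F a) / Λ := by
      rw [hdiv]
      linarith [h3]
    rwa [le_div_iff₀ hΛ0] at h4
  intro η hη
  obtain ⟨t₂, ht₂⟩ := windowsPoly F f (3 * L + 1) n₁ (by positivity) hLF hLf' (ε / 4) (c / 8) 1 (by positivity) one_pos A2
    (min η (c / 16)) (lt_min hη (by positivity))
  refine ⟨t₂, fun s t hs hst => ?_⟩
  have hs0 : (0 : ℝ) ≤ s := Nat.cast_nonneg _
  have k0 : (1 + min η (c / 16)) * (s : ℝ) ≤ t := by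
    have : min η (c / 16) * (s : ℝ) ≤ η * s := mul_le_mul_of_nonneg_right (min_le_left _ _) hs0
    linarith
  have k1 : 0 ≤ (t : ℝ) - s := by
    have := mul_nonneg hη.le hs0
    linarith
  have k2 := min_le_right η (c / 16)
  have k3 := mul_le_mul_of_nonneg_right k2 k1
  have r2 := ht₂ s t (by omega) k0
  rw [hF] at r2
  simp only at r2
  have k4 : 0 ≤ c * ((t : ℝ) - s) := mul_nonneg hc.le k1
  nlinarith

/-- **THE END OF THE SECOND STOREY**, with the power superconcentration: below `n ≥ m ^ (1 + η)`, `m` large. -/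
theorem endQ (hI : IfaceE w E G) (hwpos : ∀ n, 0 < w n) (hEpos : ∀ n, 0 < E n) {n₁ : ℕ} {C c : ℝ} (hC : 1 ≤ C) (hc : 0 < c)
    (hw : ∀ m n : ℕ, n₁ ≤ m → m ≤ n → w m ≤ C * w n ∧ w n ≤ C * ((n : ℝ) / m) * w m)
    (hE : ∀ m n : ℕ, n₁ ≤ m → m ≤ n → E m ≤ C * E n ∧ E n ≤ C * ((n : ℝ) / m) * E m)
    (hlo : ∀ m n : ℕ, n₁ ≤ m → m ≤ n → c * ((n : ℝ) / m) ^ c * w m ≤ w n)
    (hup : ∀ m n : ℕ, n₁ ≤ m → m ≤ n → E n ≤ C * ((n : ℝ) / m) ^ ((1 - c) / 2) * E m)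
    (hNP : ∀ m n : ℕ, n₁ ≤ m → m ≤ n → c * ((n : ℝ) / m) ^ (1 + c) * (w m * E m ^ 2) ≤ w n * E n ^ 2) :
    ∃ c' : ℝ, 0 < c' ∧ ∀ η : ℝ, 0 < η → ∃ m₀ : ℕ, ∀ m n : ℕ, m₀ ≤ m → (m : ℝ) ^ (1 + η) ≤ n →
      ((n : ℝ) / m) ^ (1 / 4 + c') * (E n / E m) ≤ w n / w m := by
  have hCpos : 0 < C := by linarith
  have hC0 : 0 ≤ Real.logb 2 C := Real.logb_nonneg (by norm_num) hC
  obtain ⟨f, hf⟩ : ∃ f : ℕ → ℝ, f = fun k => Real.logb 2 (w (2 ^ k)) := ⟨_, rfl⟩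
  obtain ⟨g, hg⟩ : ∃ g : ℕ → ℝ, g = fun k => Real.logb 2 (E (2 ^ k)) := ⟨_, rfl⟩
  have hLf : LipFrom f (1 + Real.logb 2 C) n₁ := by rw [hf]; exact lip_of_reg w C n₁ hC (fun n _ => hwpos n) hw
  have hLg : LipFrom g (1 + Real.logb 2 C) n₁ := by rw [hg]; exact lip_of_reg E C n₁ hC (fun n _ => hEpos n) hE
  have hpow : ∀ s : ℕ, n₁ ≤ s → n₁ ≤ 2 ^ s := fun s hs => le_trans hs (Nat.lt_two_pow_self).le
  have hcast : ∀ s t : ℕ, Real.logb 2 (((2 ^ t : ℕ) : ℝ) / ((2 ^ s : ℕ) : ℝ)) = (t : ℝ) - s := by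
    intro s t
    rw [Real.logb_div (by positivity) (by positivity), lg2, lg2]
  have hpd : ∀ s t : ℕ, (0 : ℝ) < ((2 ^ t : ℕ) : ℝ) / ((2 ^ s : ℕ) : ℝ) := fun s t => by positivity
  obtain ⟨c₁, hc₁⟩ : ∃ c₁ : ℝ, c₁ = min c (1 / 10) := ⟨_, rfl⟩
  have hc₁0 : 0 < c₁ := by rw [hc₁]; exact lt_min hc (by norm_num)
  have hc₁c : c₁ ≤ c := by rw [hc₁]; exact min_le_left _ _
  have hc₁1 : c₁ ≤ 1 / 10 := by rw [hc₁]; exact min_le_right _ _
  obtain ⟨K, hK⟩ : ∃ K : ℝ, K = |Real.logb 2 c| + Real.logb 2 C := ⟨_, rfl⟩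
  have hK0 : 0 ≤ K := by rw [hK]; positivity
  have hcabs := neg_abs_le (Real.logb 2 c)
  have habs0 := abs_nonneg (Real.logb 2 c)
  have H1 : ∀ s t : ℕ, n₁ ≤ s → s ≤ t → c₁ * ((t : ℝ) - s) - K ≤ f t - f s := by
    intro s t hs hst
    have hst' : (s : ℝ) ≤ t := by exact_mod_cast hst
    have h := hlo _ _ (hpow s hs) (Nat.pow_le_pow_right (by norm_num) hst : 2 ^ s ≤ 2 ^ t)
    have h3 := Real.logb_le_logb_of_le (b := 2) (by norm_num)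
      (mul_pos (mul_pos hc (Real.rpow_pos_of_pos (hpd s t) c)) (hwpos (2 ^ s))) h
    rw [Real.logb_mul (mul_pos hc (Real.rpow_pos_of_pos (hpd s t) c)).ne' (hwpos _).ne', Real.logb_mul hc.ne'
      (Real.rpow_pos_of_pos (hpd s t) c).ne', Real.logb_rpow_eq_mul_logb_of_pos (hpd s t), hcast] at h3
    have h4 := mul_le_mul_of_nonneg_right hc₁c (by linarith : 0 ≤ (t : ℝ) - s)
    rw [hf]
    simp only
    linarith
  have H2 : ∀ s t : ℕ, n₁ ≤ s → s ≤ t → g t - g s ≤ (1 - c₁) / 2 * ((t : ℝ) - s) + K := by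
    intro s t hs hst
    have hst' : (s : ℝ) ≤ t := by exact_mod_cast hst
    have h := hup _ _ (hpow s hs) (Nat.pow_le_pow_right (by norm_num) hst : 2 ^ s ≤ 2 ^ t)
    have h3 := Real.logb_le_logb_of_le (b := 2) (by norm_num) (hEpos _) h
    rw [Real.logb_mul (mul_pos hCpos (Real.rpow_pos_of_pos (hpd s t) _)).ne' (hEpos _).ne', Real.logb_mul hCpos.ne'
      (Real.rpow_pos_of_pos (hpd s t) _).ne', Real.logb_rpow_eq_mul_logb_of_pos (hpd s t), hcast] at h3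
    have h4 := mul_le_mul_of_nonneg_right hc₁c (by linarith : 0 ≤ (t : ℝ) - s)
    rw [hg]
    simp only
    linarith
  have H3 : ∀ s t : ℕ, n₁ ≤ s → s ≤ t → (1 + c₁) * ((t : ℝ) - s) - K ≤ (f t - f s) + 2 * (g t - g s) := by
    intro s t hs hst
    have hst' : (s : ℝ) ≤ t := by exact_mod_cast hst
    have h := hNP _ _ (hpow s hs) (Nat.pow_le_pow_right (by norm_num) hst : 2 ^ s ≤ 2 ^ t)
    have hws := hwpos (2 ^ s)
    have hwt := hwpos (2 ^ t)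
    have hss := hEpos (2 ^ s)
    have hstt := hEpos (2 ^ t)
    have h3 := Real.logb_le_logb_of_le (b := 2) (by norm_num)
      (mul_pos (mul_pos hc (Real.rpow_pos_of_pos (hpd s t) _)) (mul_pos hws (pow_pos hss 2))) h
    rw [Real.logb_mul (mul_pos hc (Real.rpow_pos_of_pos (hpd s t) _)).ne' (mul_pos hws (pow_pos hss 2)).ne',
      Real.logb_mul hc.ne' (Real.rpow_pos_of_pos (hpd s t) _).ne', Real.logb_rpow_eq_mul_logb_of_pos (hpd s t), hcast,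
      Real.logb_mul hws.ne' (pow_pos hss 2).ne', Real.logb_mul hwt.ne' (pow_pos hstt 2).ne', Real.logb_pow, Real.logb_pow] at h3
    push_cast at h3
    have h4 := mul_le_mul_of_nonneg_right hc₁c (by linarith : 0 ≤ (t : ℝ) - s)
    rw [hf, hg]
    simp only
    linarith
  have hlog := endQ_log hI hwpos hEpos hf hg hc₁0 hc₁1 hK0 (by positivity : 0 ≤ 1 + Real.logb 2 C) hLf hLg H1 H3 H2
  refine ⟨c₁ / 32, by positivity, fun η hη => ?_⟩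
  obtain ⟨t₁, ht₁⟩ := hlog (η / 2) (by positivity)
  obtain ⟨J, hJ⟩ : ∃ J : ℕ, (2000 * (Real.logb 2 C + 1) / (c₁ * η) + 2 / η) < J := exists_nat_gt _
  refine ⟨2 ^ (t₁ + J + n₁ + 1), fun m n hm hmn => ?_⟩
  have hm1 : 1 ≤ m := le_trans (Nat.one_le_pow _ _ (by norm_num)) hm
  have hmR : (1 : ℝ) ≤ m := by exact_mod_cast hm1
  have hm0 : (0 : ℝ) < m := by linarith
  have hmn' : (m : ℝ) ≤ n := by
    refine le_trans ?_ hmn
    calc (m : ℝ) = (m : ℝ) ^ (1 : ℝ) := (Real.rpow_one _).symm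
      _ ≤ _ := Real.rpow_le_rpow_of_exponent_le hmR (by linarith)
  have hmnN : m ≤ n := by exact_mod_cast hmn'
  have hn0 : (0 : ℝ) < n := lt_of_lt_of_le hm0 hmn'
  obtain ⟨s, hs⟩ : ∃ s : ℕ, s = Nat.log 2 m := ⟨_, rfl⟩
  obtain ⟨t, ht⟩ : ∃ t : ℕ, t = Nat.log 2 n := ⟨_, rfl⟩
  have hsm : 2 ^ s ≤ m := by rw [hs]; exact Nat.pow_log_le_self 2 (by omega)
  have hsm' : m < 2 ^ (s + 1) := by rw [hs]; exact Nat.lt_pow_succ_log_self (by norm_num) m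
  have htn : 2 ^ t ≤ n := by rw [ht]; exact Nat.pow_log_le_self 2 (by omega)
  have htn' : n < 2 ^ (t + 1) := by rw [ht]; exact Nat.lt_pow_succ_log_self (by norm_num) n
  have hsJ : t₁ + J + n₁ + 1 ≤ s := by
    by_contra hcon
    push Not at hcon
    have : 2 ^ (s + 1) ≤ 2 ^ (t₁ + J + n₁ + 1) := Nat.pow_le_pow_right (by norm_num) (by omega)
    omega
  have hJs : (J : ℝ) ≤ s := by
    have : J ≤ s := by omega
    exact_mod_cast this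
  -- logarithms of `m` and `n`
  have L1 : (s : ℝ) ≤ Real.logb 2 m := by
    have h5 : ((2 ^ s : ℕ) : ℝ) ≤ m := by exact_mod_cast hsm
    have h6 := Real.logb_le_logb_of_le (b := 2) (by norm_num) (by positivity) h5
    rwa [lg2] at h6
  have L2 : Real.logb 2 n ≤ t + 1 := by
    have h5 : (n : ℝ) ≤ ((2 ^ (t + 1) : ℕ) : ℝ) := by exact_mod_cast htn'.le
    have h6 := Real.logb_le_logb_of_le (b := 2) (by norm_num) hn0 h5
    rw [lg2] at h6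
    push_cast at h6
    exact h6
  have L3 : (1 + η) * Real.logb 2 m ≤ Real.logb 2 n := by
    have h6 := Real.logb_le_logb_of_le (b := 2) (by norm_num) (Real.rpow_pos_of_pos hm0 _) hmn
    rwa [Real.logb_rpow_eq_mul_logb_of_pos hm0] at h6
  have hJη : 2000 * (Real.logb 2 C + 1) ≤ c₁ * (η * s) ∧ 2 ≤ η * s := by
    have k1 : 0 ≤ 2000 * (Real.logb 2 C + 1) / (c₁ * η) := by positivity
    have k2 : 0 ≤ 2 / η := by positivity
    have k3 : 2000 * (Real.logb 2 C + 1) / (c₁ * η) ≤ s := by linarith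
    have k4 : 2 / η ≤ s := by linarith
    rw [div_le_iff₀ (by positivity)] at k3 k4
    exact ⟨by linarith, by linarith⟩
  obtain ⟨J1, J2⟩ := hJη
  have L4 : (1 + η) * s ≤ (1 + η) * Real.logb 2 m := mul_le_mul_of_nonneg_left L1 (by linarith)
  have hst : (1 + η / 2) * (s : ℝ) ≤ t := by linarith
  have hd : η * s ≤ 2 * ((t : ℝ) - s) := by linarith
  have hd0 : 0 ≤ (t : ℝ) - s := by linarith
  have J3 : 1000 * (Real.logb 2 C + 1) ≤ c₁ * ((t : ℝ) - s) := by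
    have := mul_le_mul_of_nonneg_left hd hc₁0.le
    linarith
  have R2 := ht₁ s t (by omega) hst
  -- the comparison of `m`, `2 ^ s` and of `n`, `2 ^ t`
  have hn₁s : n₁ ≤ 2 ^ s := hpow s (by omega)
  have hn₁t : n₁ ≤ 2 ^ t := by
    have h1 : s ≤ t := by
      have : (s : ℝ) ≤ t := by linarith
      exact_mod_cast this
    exact hpow t (by omega)
  have ratio : ∀ (k N : ℕ), 2 ^ k ≤ N → N < 2 ^ (k + 1) → (N : ℝ) / ((2 ^ k : ℕ) : ℝ) ≤ 2 := by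
    intro k N _ h2
    rw [div_le_iff₀ (by positivity)]
    have : (N : ℝ) ≤ ((2 ^ (k + 1) : ℕ) : ℝ) := by exact_mod_cast h2.le
    rw [pow_succ] at this
    push_cast at this ⊢
    linarith
  have cmp : ∀ (u : ℕ → ℝ), (∀ n, 0 < u n) → (∀ m n : ℕ, n₁ ≤ m → m ≤ n → u m ≤ C * u n ∧ u n ≤ C * ((n : ℝ) / m) * u m) →
      ∀ k N : ℕ, n₁ ≤ 2 ^ k → 2 ^ k ≤ N → N < 2 ^ (k + 1) →
      Real.logb 2 (u (2 ^ k)) ≤ Real.logb 2 C + Real.logb 2 (u N) ∧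
        Real.logb 2 (u N) ≤ Real.logb 2 C + 1 + Real.logb 2 (u (2 ^ k)) := by
    intro u hu h k N hk hkN hN
    have h1 := h _ _ hk hkN
    constructor
    · rw [← Real.logb_mul hCpos.ne' (hu N).ne']
      exact Real.logb_le_logb_of_le (by norm_num) (hu _) h1.1
    · have h2 : u N ≤ C * 2 * u (2 ^ k) := by
        refine h1.2.trans ?_
        exact mul_le_mul_of_nonneg_right (mul_le_mul_of_nonneg_left (ratio k N hkN hN) hCpos.le) (hu _).le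
      have h3 := Real.logb_le_logb_of_le (b := 2) (by norm_num) (hu N) h2
      rw [Real.logb_mul (by positivity) (hu _).ne', Real.logb_mul hCpos.ne' (by norm_num),
        Real.logb_self_eq_one (by norm_num)] at h3
      exact h3
  obtain ⟨wm1, wm2⟩ := cmp w hwpos hw s m hn₁s hsm hsm'
  obtain ⟨wn1, wn2⟩ := cmp w hwpos hw t n hn₁t htn htn'
  obtain ⟨Em1, Em2⟩ := cmp E hEpos hE s m hn₁s hsm hsm'
  obtain ⟨En1, En2⟩ := cmp E hEpos hE t n hn₁t htn htn'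
  have hfs : Real.logb 2 (w (2 ^ s)) = f s := by rw [hf]
  have hft : Real.logb 2 (w (2 ^ t)) = f t := by rw [hf]
  have hgs : Real.logb 2 (E (2 ^ s)) = g s := by rw [hg]
  have hgt : Real.logb 2 (E (2 ^ t)) = g t := by rw [hg]
  rw [hfs] at wm1 wm2
  rw [hft] at wn1 wn2
  rw [hgs] at Em1 Em2
  rw [hgt] at En1 En2
  have hq : Real.logb 2 ((n : ℝ) / m) ≤ t - s + 1 := by
    rw [Real.logb_div hn0.ne' hm0.ne']
    linarith
  have hq0 : 0 < (n : ℝ) / m := div_pos hn0 hm0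
  have hq' : (1 / 4 + c₁ / 32) * Real.logb 2 ((n : ℝ) / m) ≤ (1 / 4 + c₁ / 32) * (t - s + 1) :=
    mul_le_mul_of_nonneg_left hq (by positivity)
  have hw3 : 0 < (w n / w m) := div_pos (hwpos n) (hwpos m)
  have hE3 : 0 < E n / E m := div_pos (hEpos n) (hEpos m)
  have key : Real.logb 2 (((n : ℝ) / m) ^ (1 / 4 + c₁ / 32) * (E n / E m)) ≤ Real.logb 2 (w n / w m) := by
    rw [Real.logb_mul (Real.rpow_pos_of_pos hq0 _).ne' hE3.ne', Real.logb_rpow_eq_mul_logb_of_pos hq0,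
      Real.logb_div (hEpos n).ne' (hEpos m).ne', Real.logb_div (hwpos n).ne' (hwpos m).ne']
    linarith
  exact (Real.logb_le_logb (by norm_num) (mul_pos (Real.rpow_pos_of_pos hq0 _) hE3) hw3).1 key

end Pool.Agent.W_7d29a1_Z57
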