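import Pool.Agent.W_7d29a1_Z57.JE57
import Pool.Agent.W_7d29a1_SR.Main3

/-!
STORM Z, SECOND STOREY: the rate function and the free energy on the probability space of the problem:
`J (v) ≤ |v| ^ (3 / 2 + c)` and `λ (h) ≥ |h| ^ (3 - c)` near `0`.
-/

namespace Pool.Agent.W_7d29a1_Z57

open MeasureTheory ProbabilityTheory Filter Topology
open Pool.Agent.W_7d29a1_F Pool.Agent.W_7d29a1_G Pool.Agent.W_7d29a1_SR
open Pool.Agent.W_7d29a1_L
open Pool.Agent.W_7d29a1_h47 (LamN EM_of Nondeg_of map_toEnv tendsto_logZ log_endMGF endMGF endP)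

/-- A constant is absorbed by a smaller exponent near `0`. -/
theorem pow_absorb {K p q : ℝ} (hK : 0 < K) (hpq : q < p) : ∃ v₁ : ℝ, 0 < v₁ ∧ v₁ ≤ 1 ∧ ∀ v : ℝ, 0 < v → v ≤ v₁ →
    K * v ^ p ≤ v ^ q := by
  have hd : 0 < p - q := by linarith
  refine ⟨min 1 ((1 / K) ^ (1 / (p - q))), lt_min one_pos (by positivity), min_le_left _ _, fun v hv hv1 => ?_⟩
  have h1 : v ≤ (1 / K) ^ (1 / (p - q)) := hv1.trans (min_le_right _ _)
  have h2 : v ^ (p - q) ≤ 1 / K := by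
    calc v ^ (p - q) ≤ ((1 / K) ^ (1 / (p - q))) ^ (p - q) := Real.rpow_le_rpow hv.le h1 hd.le
      _ = 1 / K := by rw [← Real.rpow_mul (by positivity), one_div_mul_cancel hd.ne', Real.rpow_one]
  have e1 : v ^ p = v ^ (p - q) * v ^ q := by
    rw [← Real.rpow_add hv]
    congr 1
    ring
  rw [e1]
  have h3 : K * v ^ (p - q) ≤ 1 := by
    rw [le_div_iff₀ hK] at h2
    linarith
  calc K * (v ^ (p - q) * v ^ q) = (K * v ^ (p - q)) * v ^ q := by ring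
    _ ≤ 1 * v ^ q := mul_le_mul_of_nonneg_right h3 (Real.rpow_nonneg hv.le _)
    _ = v ^ q := one_mul _

theorem main_JE
    (hE2 : ∀ (μ : Measure ℝ) [IsProbabilityMeasure μ], Pool.Agent.W_7d29a1_h47.EM μ → Pool.Agent.W_7d29a1_h47.Nondeg μ →
      ∃ (c C : ℝ) (n₀ : ℕ), In μ c C n₀ ∧ ∃ a : ℝ, 0 < a ∧ ∀ᶠ n : ℕ in atTop,
        (n : ℝ) ^ (1 / 2 + a) ≤ wd μ n ∧ (n : ℝ) ^ (1 / 2 + a) * EE μ n ≤ wd μ n ^ (3 / 2 : ℝ))
    {Ω : Type*} [MeasurableSpace Ω] (P : Measure Ω) [IsProbabilityMeasure P]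
    (ω : ℕ × ℤ → Ω → ℝ) (hmeas : ∀ p, Measurable (ω p)) (hindep : iIndepFun ω P)
    (hident : ∀ p q, IdentDistrib (ω p) (ω q) P P) (hnc : ¬ ∃ c : ℝ, ∀ᵐ x ∂P, ω (0, 0) x = c)
    (hexp : ∀ b : ℝ, Integrable (fun x => Real.exp (b * ω (0, 0) x)) P) {β : ℝ} (hβ : 0 < β) :
    ∃ (lam J : ℝ → ℝ) (c : ℝ), 0 < c ∧
      (∀ h, ∀ᵐ x ∂P, Tendsto (fun n : ℕ => Real.log (endMGF β h (fun p => ω p x) n) / n) atTop (𝓝 (lam h))) ∧
      (∀ v, |v| < 1 → ∀ y : ℕ → ℤ, (∀ n, (y n - n) % 2 = 0) → Tendsto (fun n : ℕ => (y n : ℝ) / n) atTop (𝓝 v) →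
        ∀ᵐ x ∂P, Tendsto (fun n : ℕ => -Real.log (endP β (fun p => ω p x) n (y n)) / n) atTop (𝓝 (J v))) ∧
      (∀ v, |v| < 1 → IsLUB (Set.range fun h => h * v - lam h) (J v)) ∧
      (∀ v, |v| ≤ c → J v ≤ |v| ^ (3 / 2 + c)) ∧ (∀ h, |h| ≤ c → |h| ^ (3 - c) ≤ lam h) := by
  obtain ⟨⟨lam, J, -, -, -, hlamp, -, h4, -, h6, h7, -, hJd, hJH⟩, -⟩ :=
    Pool.Agent.W_7d29a1_F.main_FV P ω hmeas hindep hident hnc hexp hβ
  obtain ⟨μ, hμdef⟩ : ∃ μ : Measure ℝ, μ = P.map fun x => β * ω (0, 0) x := ⟨_, rfl⟩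
  have hm0 : Measurable fun x => β * ω (0, 0) x := (hmeas _).const_mul β
  have hprob : IsProbabilityMeasure μ := by
    rw [hμdef]
    exact Measure.isProbabilityMeasure_map hm0.aemeasurable
  have hμ : Pool.Agent.W_7d29a1_h47.EM μ := by
    rw [hμdef]
    exact EM_of (hmeas _) hexp β
  have hnd : Pool.Agent.W_7d29a1_h47.Nondeg μ := by
    rw [hμdef]
    exact Nondeg_of (hmeas _) hnc hβ
  have hmpE := map_toEnv hmeas hindep hident β
  rw [← hμdef] at hmpE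
  have hid : lam = LamN μ := by
    funext h
    have g1 := hmpE.quasiMeasurePreserving.ae (tendsto_logZ hμ h)
    have g2 := hmpE.quasiMeasurePreserving.ae (tendsto_logZ hμ 0)
    obtain ⟨x, hx1, hx2, hx3⟩ := (g1.and (g2.and (h4 h))).exists
    refine tendsto_nhds_unique hx3 ((hx1.sub hx2).congr fun n => ?_)
    rw [log_endMGF, sub_div]
  have hidL : ∀ h, lam h = Pool.Agent.W_7d29a1_h47.Lam μ h - Pool.Agent.W_7d29a1_h47.Lam μ 0 := by
    intro h
    rw [hid]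
    rfl
  have hlam0 : lam 0 = 0 := by rw [hidL, sub_self]
  have hJJ : ∀ v, |v| < 1 → J v = Pool.Agent.W_7d29a1_G.J μ (v / 2) := fun v hv => (J_of_lub hidL (h6 v hv)).symm
  have hJz : J 0 = 0 := by
    rw [hJJ 0 (by norm_num), zero_div, Pool.Agent.W_7d29a1_G.J_zero hμ]
  obtain ⟨c₀, C₀, n₀, hI, a, ha, hH⟩ := hE2 μ hμ hnd
  obtain ⟨K, v₀, hK, hv₀, hv₀1, hJ⟩ := J_upper hI ha hH
  -- the rate function
  have hJup : ∀ v, |v| ≤ v₀ → J v ≤ K * |v| ^ (3 / 2 + 2 * a) := by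
    intro v hv
    rw [hJJ v (by linarith)]
    have h2 : |v / 2| = |v| / 2 := by rw [abs_div, abs_of_pos (by norm_num : (0 : ℝ) < 2)]
    have h3 : |v / 2| ≤ |v| := by
      rw [h2]
      linarith [abs_nonneg v]
    refine (hJ (v / 2) (h3.trans hv)).trans ?_
    exact mul_le_mul_of_nonneg_left (Real.rpow_le_rpow (abs_nonneg _) h3 (by positivity)) hK.le
  obtain ⟨k, h₀, hk, hh₀, hlow⟩ := lam_lower hK hv₀ (by linarith) (show 0 < 2 * a by positivity) h6 hJup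
  -- the exponents
  obtain ⟨v₁, hv₁, hv₁1, hab1⟩ := pow_absorb (p := 3 / 2 + 2 * a) (q := 3 / 2 + a) hK (by linarith)
  have hq3 : 1 + 1 / (1 / 2 + 2 * a) < 3 := by
    have : 1 / (1 / 2 + 2 * a) < 2 := by
      rw [div_lt_iff₀ (by positivity)]
      linarith
    linarith
  obtain ⟨d, hd⟩ : ∃ d : ℝ, d = (3 - (1 + 1 / (1 / 2 + 2 * a))) / 2 := ⟨_, rfl⟩
  have hd0 : 0 < d := by rw [hd]; linarith
  obtain ⟨h₁, hh₁, hh₁1, hab2⟩ := pow_absorb (K := 1 / k) (p := 3 - d) (q := 1 + 1 / (1 / 2 + 2 * a)) (by positivity)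
    (by rw [hd]; linarith)
  obtain ⟨c, hc⟩ : ∃ c : ℝ, c = min (min (min v₀ v₁) (min h₀ h₁)) (min a d) := ⟨_, rfl⟩
  have hc0 : 0 < c := by
    rw [hc]
    exact lt_min (lt_min (lt_min hv₀ hv₁) (lt_min hh₀ hh₁)) (lt_min ha hd0)
  have c1 : c ≤ v₀ := by rw [hc]; exact ((min_le_left _ _).trans (min_le_left _ _)).trans (min_le_left _ _)
  have c2 : c ≤ v₁ := by rw [hc]; exact ((min_le_left _ _).trans (min_le_left _ _)).trans (min_le_right _ _)
  have c3 : c ≤ h₀ := by rw [hc]; exact ((min_le_left _ _).trans (min_le_right _ _)).trans (min_le_left _ _)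
  have c4 : c ≤ h₁ := by rw [hc]; exact ((min_le_left _ _).trans (min_le_right _ _)).trans (min_le_right _ _)
  have c5 : c ≤ a := by rw [hc]; exact (min_le_right _ _).trans (min_le_left _ _)
  have c6 : c ≤ d := by rw [hc]; exact (min_le_right _ _).trans (min_le_right _ _)
  refine ⟨lam, J, c, hc0, h4, h7, h6, fun v hv => ?_, fun h hh => ?_⟩
  · rcases eq_or_lt_of_le (abs_nonneg v) with h0 | h0
    · rw [abs_eq_zero.1 h0.symm, hJz]
      positivity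
    · refine (hJup v (hv.trans c1)).trans ((hab1 |v| h0 (hv.trans c2)).trans ?_)
      exact Real.rpow_le_rpow_of_exponent_ge h0 ((hv.trans c2).trans hv₁1) (by linarith)
  · rcases eq_or_lt_of_le (abs_nonneg h) with h0 | h0
    · have h3 : 0 < 3 - c := by
        have : d < 3 := by
          rw [hd]
          have : 0 < 1 / (1 / 2 + 2 * a) := by positivity
          linarith
        linarith
      rw [abs_eq_zero.1 h0.symm, abs_zero, Real.zero_rpow h3.ne', hlam0]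
    · have h1 := hlow h (hh.trans c3)
      have h2 := hab2 |h| h0 (hh.trans c4)
      have h3 : |h| ^ (3 - d) ≤ k * |h| ^ (1 + 1 / (1 / 2 + 2 * a)) := by
        have h5 := mul_le_mul_of_nonneg_left h2 hk.le
        have e1 : k * (1 / k * |h| ^ (3 - d)) = |h| ^ (3 - d) := by field_simp
        rwa [e1] at h5
      refine le_trans ?_ (h3.trans h1)
      exact Real.rpow_le_rpow_of_exponent_ge h0 ((hh.trans c4).trans hh₁1) (by linarith)

end Pool.Agent.W_7d29a1_Z57
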