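import Pool.Agent.W_7d29a1_Z57.AlgE57e
import Pool.Agent.W_7d29a1_Z57.FinE57
import Pool.Agent.W_7d29a1_XA.Defs
import Pool.Agent.W_7d29a1_Z46.MainZ

/-!
STORM Z, SECOND STOREY: `n ^ (1 / 4 + c) E_n ≤ w_n` for all large `n`, and on the probability space of the problem
`n ^ (1 / 2 + c) Var log Z_n ≤ E E_n S_n ^ 2` and `χ + 1 / 4 + c ≤ ν`.
-/

namespace Pool.Agent.W_7d29a1_Z57

open MeasureTheory ProbabilityTheory Filter Topology Finset
open Pool.Agent.W_7d29a1_F Pool.Agent.W_7d29a1_X Pool.Agent.W_7d29a1_G Pool.Agent.W_7d29a1_Z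
open Pool.Agent.W_7d29a1_SR (In wd)
open Pool.Agent.W_7d29a1_Z.StpK (OkayQ)
open scoped ENNReal

variable {μ : Measure ℝ}

/-- The power superconcentration of the unit, from every scale. -/
def SupC (μ : Measure ℝ) : Prop :=
  ∃ (C e : ℝ) (n₁ : ℕ), 0 < C ∧ 0 < e ∧ e ≤ 1 ∧ 1 ≤ n₁ ∧ ∀ m n : ℕ, n₁ ≤ m → m ≤ n →
    EE μ n ^ 2 ≤ C * ((n : ℝ) / m) ^ (1 - e) * EE μ m ^ 2

variable [IsProbabilityMeasure μ] {c₁ C₁ : ℝ} {n₀ : ℕ}

/-- **THE SECOND STOREY WITH THE SUPERCONCENTRATION.** -/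
theorem secondQ (h : In μ c₁ C₁ n₀) (hF : HF2 μ) (hO : OkayQ μ fun t => (EE' μ t)⁻¹) (hB : BaseE μ) (hS : SupC μ) :
    ∃ c' : ℝ, 0 < c' ∧ ∀ η : ℝ, 0 < η → ∃ m₀ : ℕ, ∀ m n : ℕ, m₀ ≤ m → (m : ℝ) ^ (1 + η) ≤ n →
      ((n : ℝ) / m) ^ (1 / 4 + c') * (EE' μ n / EE' μ m) ≤ wd' μ n / wd' μ m := by
  obtain ⟨n₁, C, c, hn₁1, hC, hc, h1, h2, h3, h4, h5⟩ := reg_wire h hF
  obtain ⟨D, e, n₂, hD, he, he1, hn₂1, h6⟩ := hS
  obtain ⟨n₃, hn₃⟩ := wd'_eq h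
  obtain ⟨c₂, hc₂⟩ : ∃ c₂ : ℝ, c₂ = min c e := ⟨_, rfl⟩
  have hc₂0 : 0 < c₂ := by rw [hc₂]; exact lt_min hc he
  have hcc : c₂ ≤ c := by rw [hc₂]; exact min_le_left _ _
  have hce : c₂ ≤ e := by rw [hc₂]; exact min_le_right _ _
  obtain ⟨C₂, hC₂⟩ : ∃ C₂ : ℝ, C₂ = max C (D + 1) := ⟨_, rfl⟩
  have hCC : C ≤ C₂ := by rw [hC₂]; exact le_max_left _ _
  have hDC : D + 1 ≤ C₂ := by rw [hC₂]; exact le_max_right _ _
  have hC₂1 : 1 ≤ C₂ := hC.trans hCC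
  have hw0 : ∀ m, 0 < wd' μ m := fun m => lt_of_lt_of_le one_pos (wd'_one m)
  have hE0 : ∀ m, 0 < EE' μ m := fun m => lt_of_lt_of_le one_pos (EE'_one m)
  have hr : ∀ m n : ℕ, 1 ≤ m → m ≤ n → (1 : ℝ) ≤ (n : ℝ) / m := by
    intro m n hm hmn
    have : (0 : ℝ) < m := by exact_mod_cast hm
    rw [le_div_iff₀ this, one_mul]
    exact_mod_cast hmn
  have hr0 : ∀ m n : ℕ, 1 ≤ m → m ≤ n → (0 : ℝ) < (n : ℝ) / m := fun m n hm hmn =>
    lt_of_lt_of_le one_pos (hr m n hm hmn)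
  refine endQ (iface_wire h hF hO hB) (n₁ := n₁ + n₂ + n₃) hw0 hE0 hC₂1 hc₂0 ?_ ?_ ?_ ?_ ?_
  · intro m n hm hmn
    obtain ⟨k1, k2⟩ := h1 m n (by omega) hmn
    refine ⟨k1.trans (mul_le_mul_of_nonneg_right hCC (hw0 n).le), k2.trans (mul_le_mul_of_nonneg_right ?_ (hw0 m).le)⟩
    exact mul_le_mul_of_nonneg_right hCC (hr0 m n (by omega) hmn).le
  · intro m n hm hmn
    obtain ⟨k1, k2⟩ := h2 m n (by omega) hmn
    refine ⟨k1.trans (mul_le_mul_of_nonneg_right hCC (hE0 n).le), k2.trans (mul_le_mul_of_nonneg_right ?_ (hE0 m).le)⟩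
    exact mul_le_mul_of_nonneg_right hCC (hr0 m n (by omega) hmn).le
  · intro m n hm hmn
    refine le_trans ?_ (h3 m n (by omega) hmn)
    refine mul_le_mul_of_nonneg_right ?_ (hw0 m).le
    exact mul_le_mul hcc (Real.rpow_le_rpow_of_exponent_le (hr m n (by omega) hmn) hcc)
      (Real.rpow_nonneg (hr0 m n (by omega) hmn).le _) hc.le
  · intro m n hm hmn
    have hm1 : 1 ≤ m := by omega
    have k1 := h6 m n (by omega) hmn
    obtain ⟨-, e2, -⟩ := hn₃ m (by omega)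
    obtain ⟨-, e4, -⟩ := hn₃ n (by omega)
    rw [← e2, ← e4] at k1
    have hq := hr m n hm1 hmn
    have hq0 := hr0 m n hm1 hmn
    have k2 : ((n : ℝ) / m) ^ (1 - e) ≤ ((n : ℝ) / m) ^ (1 - c₂) := Real.rpow_le_rpow_of_exponent_le hq (by linarith)
    have k3 : (C₂ * ((n : ℝ) / m) ^ ((1 - c₂) / 2) * EE' μ m) ^ 2 = C₂ ^ 2 * ((n : ℝ) / m) ^ (1 - c₂) * EE' μ m ^ 2 := by
      rw [mul_pow, mul_pow, ← Real.rpow_natCast (((n : ℝ) / m) ^ ((1 - c₂) / 2)), ← Real.rpow_mul hq0.le]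
      congr 3
      push_cast
      ring
    have k4 : D ≤ C₂ ^ 2 := by nlinarith
    have k5 : EE' μ n ^ 2 ≤ (C₂ * ((n : ℝ) / m) ^ ((1 - c₂) / 2) * EE' μ m) ^ 2 := by
      rw [k3]
      refine k1.trans (mul_le_mul_of_nonneg_right ?_ (sq_nonneg _))
      exact mul_le_mul k4 k2 (Real.rpow_nonneg hq0.le _) (by positivity)
    exact (pow_le_pow_iff_left₀ (hE0 n).le (by have := (hE0 m).le; positivity) (by norm_num)).1 k5
  · intro m n hm hmn
    refine le_trans ?_ (h5 m n (by omega) hmn)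
    refine mul_le_mul_of_nonneg_right ?_ (by have := (hw0 m).le; positivity)
    exact mul_le_mul hcc (Real.rpow_le_rpow_of_exponent_le (hr m n (by omega) hmn) (by linarith))
      (Real.rpow_nonneg (hr0 m n (by omega) hmn).le _) hc.le

/-- From a fixed start: `n ^ (1 / 4 + c') E_n ≤ w_n` for all large `n`. -/
theorem evQ_of {w E : ℕ → ℝ} (hw : ∀ n, 1 ≤ w n) (hE : ∀ n, 1 ≤ E n) {c' : ℝ} (hc' : 0 < c')
    (H : ∀ η : ℝ, 0 < η → ∃ m₀ : ℕ, ∀ m n : ℕ, m₀ ≤ m → (m : ℝ) ^ (1 + η) ≤ n →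
      ((n : ℝ) / m) ^ (1 / 4 + c') * (E n / E m) ≤ w n / w m) :
    ∀ᶠ n : ℕ in atTop, (n : ℝ) ^ (1 / 4 + c' / 2) * E n ≤ w n := by
  obtain ⟨m₀, h⟩ := H 1 one_pos
  obtain ⟨m, hm⟩ : ∃ m : ℕ, m = m₀ + 1 := ⟨_, rfl⟩
  have hm1 : (1 : ℝ) ≤ m := by
    have : 1 ≤ m := by omega
    exact_mod_cast this
  have hm0 : (0 : ℝ) < m := by linarith
  have t1 : Tendsto (fun n : ℕ => (n : ℝ) ^ (c' / 2)) atTop atTop :=
    (tendsto_rpow_atTop (by positivity)).comp tendsto_natCast_atTop_atTop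
  filter_upwards [tendsto_natCast_atTop_atTop.eventually_ge_atTop ((m : ℝ) ^ (1 + 1 : ℝ)),
    t1.eventually_ge_atTop ((m : ℝ) ^ (1 / 4 + c') * E m)] with n h1 h2
  have k1 := h m n (by omega) h1
  have hn0 : (0 : ℝ) < n := lt_of_lt_of_le (Real.rpow_pos_of_pos hm0 _) h1
  have hmp : 0 < (m : ℝ) ^ (1 / 4 + c') := Real.rpow_pos_of_pos hm0 _
  have e1 : ((n : ℝ) / m) ^ (1 / 4 + c') = (n : ℝ) ^ (1 / 4 + c' / 2) * (n : ℝ) ^ (c' / 2) / (m : ℝ) ^ (1 / 4 + c') := by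
    rw [Real.div_rpow hn0.le hm0.le, ← Real.rpow_add hn0]
    congr 2
    ring
  have hN0 : 0 < (n : ℝ) ^ (1 / 4 + c' / 2) := Real.rpow_pos_of_pos hn0 _
  have hEm := hE m
  have hwm := hw m
  have hEm0 : 0 < E m := lt_of_lt_of_le one_pos hEm
  have hEn : 0 < E n := lt_of_lt_of_le one_pos (hE n)
  have hwn : 0 < w n := lt_of_lt_of_le one_pos (hw n)
  have e2 : (n : ℝ) ^ (1 / 4 + c' / 2) * E m ≤ ((n : ℝ) / m) ^ (1 / 4 + c') := by
    rw [e1, le_div_iff₀ hmp]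
    calc (n : ℝ) ^ (1 / 4 + c' / 2) * E m * (m : ℝ) ^ (1 / 4 + c') = (n : ℝ) ^ (1 / 4 + c' / 2) * ((m : ℝ) ^ (1 / 4 + c') * E m) := by ring
      _ ≤ _ := mul_le_mul_of_nonneg_left h2 hN0.le
  have h3 : w n / w m ≤ w n := div_le_self hwn.le hwm
  refine le_trans ?_ (k1.trans h3)
  calc (n : ℝ) ^ (1 / 4 + c' / 2) * E n = (n : ℝ) ^ (1 / 4 + c' / 2) * E m * (E n / E m) := by field_simp
    _ ≤ _ := mul_le_mul_of_nonneg_right e2 (by positivity)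

/-- **THE SECOND STOREY WITH THE SUPERCONCENTRATION, for all large `n`.** -/
theorem secondQ_ev (h : In μ c₁ C₁ n₀) (hF : HF2 μ) (hO : OkayQ μ fun t => (EE' μ t)⁻¹) (hB : BaseE μ) (hS : SupC μ) :
    ∃ a : ℝ, 0 < a ∧ ∀ᶠ n : ℕ in atTop, (n : ℝ) ^ (1 / 2 + a) ≤ wd μ n ∧ (n : ℝ) ^ (1 / 2 + a) * EE μ n ≤ wd μ n ^ (3 / 2 : ℝ) ∧
      (n : ℝ) ^ (1 / 4 + a) * EE μ n ≤ wd μ n := by
  obtain ⟨c', hc', H⟩ := secondQ h hF hO hB hS
  obtain ⟨c₂, hc₂, H2⟩ := secondE_ev h hF hO hB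
  obtain ⟨n₁, hn₁⟩ := wd'_eq h
  obtain ⟨a, ha⟩ : ∃ a : ℝ, a = min (c' / 2) c₂ := ⟨_, rfl⟩
  have ha0 : 0 < a := by rw [ha]; exact lt_min (by positivity) hc₂
  have ha1 : a ≤ c' / 2 := by rw [ha]; exact min_le_left _ _
  have ha2 : a ≤ c₂ := by rw [ha]; exact min_le_right _ _
  refine ⟨a, ha0, ?_⟩
  filter_upwards [evQ_of wd'_one EE'_one hc' H, H2, eventually_ge_atTop n₁, eventually_ge_atTop 1] with n h1 h2 h3 h4
  obtain ⟨e1, e2, -⟩ := hn₁ n h3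
  rw [e1, e2] at h1
  have hn1 : (1 : ℝ) ≤ n := by exact_mod_cast h4
  have hE : 0 ≤ EE μ n := by
    rw [← e2]
    exact le_trans zero_le_one (EE'_one n)
  have p1 : (n : ℝ) ^ (1 / 2 + a) ≤ (n : ℝ) ^ (1 / 2 + c₂) := Real.rpow_le_rpow_of_exponent_le hn1 (by linarith)
  have p2 : (n : ℝ) ^ (1 / 4 + a) ≤ (n : ℝ) ^ (1 / 4 + c' / 2) := Real.rpow_le_rpow_of_exponent_le hn1 (by linarith)
  exact ⟨p1.trans h2.1, (mul_le_mul_of_nonneg_right p1 hE).trans h2.2, (mul_le_mul_of_nonneg_right p2 hE).trans h1⟩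

section space

open Pool.Agent.W_7d29a1_SR Pool.Agent.W_7d29a1_Z46
open Pool.Agent.W_7d29a1_h47 (polE walk)

variable {Ω : Type*} [MeasurableSpace Ω] {P : Measure Ω} [IsProbabilityMeasure P] {ω : ℕ × ℤ → Ω → ℝ} {β : ℝ}

/-- `n ^ (1 / 2 + c) Var log Z_n ≤ E E_n S_n ^ 2` and `χ + 1 / 4 + c ≤ ν`, from `n ^ (1 / 4 + a) E_n ≤ w_n`. -/
theorem core_Q (h : In μ c₁ C₁ n₀) (hF : HF2 μ) (hmeas : ∀ p, Measurable (ω p))
    (hmp : MeasurePreserving (fun x => toF β fun p => ω p x) P (law μ))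
    (hw : ∃ a : ℝ, 0 < a ∧ ∀ᶠ n : ℕ in atTop, (n : ℝ) ^ (1 / 4 + a) * EE μ n ≤ wd μ n) :
    ∃ c' : ℝ, 0 < c' ∧
      (∀ᶠ n : ℕ in atTop, (n : ℝ) ^ (1 / 2 + c') * Var[fun x => Real.log (pZ β (fun p => ω p x) n); P] ≤
        ∫ x, polE β (fun p => ω p x) n (fun s => (walk s n : ℝ) ^ 2) ∂P) ∧
      chiP P β ω + 1 / 4 + c' ≤ nuP P β ω := by
  obtain ⟨a, ha, hwa⟩ := hw
  obtain ⟨a₁, A₁, b, B, ha₁, hA₁, hb, hB, n₁, hn₁, hsc⟩ := scales (P := P) (β := β) (ω := ω) h hmp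
  have hD := Pool.Agent.W_7d29a1_59E.dj_of h hF
  obtain ⟨b', hb', n₂, hM⟩ := Pool.Agent.W_7d29a1_59E.endM_P (P := P) (ω := ω) (β := β) h hD hmeas hmp 2
  -- the comparison of the width with the standard deviation
  have hW : ∀ᶠ n : ℕ in atTop, (n : ℝ) ^ (1 / 4 + a / 2) * sgm P β ω n ≤ wth P β ω (fun v => J μ (v / 2)) n := by
    filter_upwards [hwa, eventually_ge_atTop n₁,
      ev_absorb (b := 1 / 4 + a) (b' := 1 / 4 + a / 2) (K := b / A₁) (by positivity) (by linarith)] with n g1 g2 g3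
    obtain ⟨-, s2, s1, -, -⟩ := hsc n g2
    have hE0 : 0 ≤ EE μ n := le_trans zero_le_one (Pool.Agent.W_7d29a1_G.one_le_EE (μ := μ) n)
    calc (n : ℝ) ^ (1 / 4 + a / 2) * sgm P β ω n ≤ (n : ℝ) ^ (1 / 4 + a / 2) * (A₁ * EE μ n) :=
          mul_le_mul_of_nonneg_left s2 (by positivity)
      _ ≤ b / A₁ * (n : ℝ) ^ (1 / 4 + a) * (A₁ * EE μ n) := mul_le_mul_of_nonneg_right g3 (by positivity)
      _ = b * ((n : ℝ) ^ (1 / 4 + a) * EE μ n) := by field_simp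
      _ ≤ b * wd μ n := mul_le_mul_of_nonneg_left g1 hb.le
      _ ≤ _ := s1
  have hvar : ∀ n, Var[fun x => Real.log (pZ β (fun p => ω p x) n); P] = sgm P β ω n ^ 2 := fun n => by
    unfold sgm
    rw [Real.sq_sqrt (variance_nonneg _ _)]
  have hsg0 : ∀ n, 0 ≤ sgm P β ω n := fun n => Real.sqrt_nonneg _
  refine ⟨a / 4, by positivity, ?_, ?_⟩
  · filter_upwards [hW, eventually_ge_atTop n₂, eventually_ge_atTop 1,
      ev_absorb (b := 1 / 2 + a) (b' := 1 / 2 + a / 4) (K := b') hb' (by linarith)] with n g1 g2 g3 g4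
    have hn0 : (0 : ℝ) < n := by exact_mod_cast g3
    have h2 := hM n g2
    have h3 : (fun s : Fin n → Bool => |(walk s n : ℝ)| ^ 2) = fun s => (walk s n : ℝ) ^ 2 := by
      funext s
      exact sq_abs _
    rw [h3] at h2
    refine le_trans ?_ h2
    rw [hvar]
    have h4 : 0 ≤ (n : ℝ) ^ (1 / 4 + a / 2) * sgm P β ω n := mul_nonneg (by positivity) (hsg0 n)
    calc (n : ℝ) ^ (1 / 2 + a / 4) * sgm P β ω n ^ 2 ≤ b' * (n : ℝ) ^ (1 / 2 + a) * sgm P β ω n ^ 2 :=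
          mul_le_mul_of_nonneg_right g4 (sq_nonneg _)
      _ = b' * ((n : ℝ) ^ (1 / 4 + a / 2) * sgm P β ω n) ^ 2 := by
          rw [mul_pow, ← Real.rpow_natCast ((n : ℝ) ^ (1 / 4 + a / 2)), ← Real.rpow_mul hn0.le]
          have e : (1 / 4 + a / 2) * ((2 : ℕ) : ℝ) = 1 / 2 + a := by
            push_cast
            ring
          rw [e]
          ring
      _ ≤ _ := mul_le_mul_of_nonneg_left (pow_le_pow_left₀ h4 g1 2) hb'.le
  · -- the exponents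
    have key : ∀ x : ℝ, 0 < x → (∀ᶠ n : ℕ in atTop, (n : ℝ) ^ (2 * x) ≤ Var[fun y => Real.log (pZ β (fun p => ω p y) n); P]) →
        x + 1 / 4 + a / 4 ≤ nuP P β ω := by
      intro x hx hxv
      refine nuP_ge hmeas fun ε hε => Eventually.frequently ?_
      obtain ⟨c₂, hc₂, n₃, hE⟩ := Pool.Agent.W_7d29a1_59E.endS_P (P := P) (ω := ω) (β := β) h hD hmeas hmp hε
      filter_upwards [hW, hxv, eventually_ge_atTop n₃, eventually_ge_atTop 1,
        ev_absorb (b := x + 1 / 4 + a / 2) (b' := x + 1 / 4 + a / 4) (K := c₂) hc₂ (by linarith)] with n g1 g2 g3 g4 g5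
      have hn0 : (0 : ℝ) < n := by exact_mod_cast g4
      have k1 : (n : ℝ) ^ x ≤ sgm P β ω n := by
        rw [hvar] at g2
        have e : (n : ℝ) ^ (2 * x) = ((n : ℝ) ^ x) ^ 2 := by
          rw [← Real.rpow_natCast ((n : ℝ) ^ x), ← Real.rpow_mul hn0.le]
          congr 1
          push_cast
          ring
        rw [e] at g2
        exact (pow_le_pow_iff_left₀ (by positivity) (hsg0 n) (by norm_num)).1 g2
      have k2 : (n : ℝ) ^ (x + 1 / 4 + a / 2) ≤ wth P β ω (fun v => J μ (v / 2)) n := by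
        refine le_trans ?_ g1
        calc (n : ℝ) ^ (x + 1 / 4 + a / 2) = (n : ℝ) ^ (1 / 4 + a / 2) * (n : ℝ) ^ x := by
              rw [← Real.rpow_add hn0]
              congr 1
              ring
          _ ≤ _ := mul_le_mul_of_nonneg_left k1 (by positivity)
      refine le_trans (integral_mono (polP_integrable hmeas β n _) (polP_integrable hmeas β n _) fun y =>
        polP_mono _ _ _ fun s hs => ?_) (hE n g3)
      refine (hs n le_rfl).trans (g5.trans ?_)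
      exact mul_le_mul_of_nonneg_left k2 hc₂.le
    by_cases hne : {x : ℝ | 0 < x ∧ ∀ᶠ n : ℕ in atTop, (n : ℝ) ^ (2 * x) ≤ Var[fun y => Real.log (pZ β (fun p => ω p y) n); P]}.Nonempty
    · have h1 : chiP P β ω ≤ nuP P β ω - 1 / 4 - a / 4 := by
        unfold chiP
        refine csSup_le hne fun x hx => ?_
        have := key x hx.1 hx.2
        linarith
      linarith
    · rw [Set.not_nonempty_iff_eq_empty] at hne
      have h1 : chiP P β ω = 0 := by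
        unfold chiP
        rw [hne, Real.sSup_empty]
      rw [h1]
      -- `w_n ≥ n ^ (1 / 4 + a)` as the unit is at least one
      have h2 : ∀ᶠ n : ℕ in atTop, (n : ℝ) ^ (1 / 4 + a / 2) ≤ wth P β ω (fun v => J μ (v / 2)) n := by
        filter_upwards [hwa, eventually_ge_atTop n₁,
          ev_absorb (b := 1 / 4 + a) (b' := 1 / 4 + a / 2) (K := b) hb (by linarith)] with n g1 g2 g3
        obtain ⟨-, -, s1, -, -⟩ := hsc n g2
        have hE1 : 1 ≤ EE μ n := Pool.Agent.W_7d29a1_G.one_le_EE (μ := μ) n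
        refine g3.trans (le_trans ?_ s1)
        refine mul_le_mul_of_nonneg_left (le_trans ?_ g1) hb.le
        exact le_mul_of_one_le_right (by positivity) hE1
      have h3 : 1 / 4 + a / 4 ≤ nuP P β ω := by
        refine nuP_ge hmeas fun ε hε => Eventually.frequently ?_
        obtain ⟨c₂, hc₂, n₃, hE⟩ := Pool.Agent.W_7d29a1_59E.endS_P (P := P) (ω := ω) (β := β) h hD hmeas hmp hε
        filter_upwards [h2, eventually_ge_atTop n₃,
          ev_absorb (b := 1 / 4 + a / 2) (b' := 1 / 4 + a / 4) (K := c₂) hc₂ (by linarith)] with n g1 g3 g5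
        refine le_trans (integral_mono (polP_integrable hmeas β n _) (polP_integrable hmeas β n _) fun y =>
          polP_mono _ _ _ fun s hs => ?_) (hE n g3)
        refine (hs n le_rfl).trans (g5.trans ?_)
        exact mul_le_mul_of_nonneg_left g1 hc₂.le
      linarith

end space

end Pool.Agent.W_7d29a1_Z57
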