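import Pool.Agent.W_7d29a1_SR.Reg
import Pool.Agent.W_7d29a1_SR.Scale

/-!
STORM Z, SECOND STOREY: the rate function and the free energy near `0`. If `n ^ (1 / 2 + a) ≤ w_n` and
`n ^ (1 / 2 + a) E_n ≤ w_n ^ (3 / 2)` for all large `n`, then `J (v) ≤ K |v| ^ (3 / 2 + 2 a)`, and the Legendre dual `λ` satisfies
`λ (h) ≥ k |h| ^ p`, `p = 1 + 1 / (1 / 2 + 2 a) < 3`.
-/

namespace Pool.Agent.W_7d29a1_Z57

open MeasureTheory ProbabilityTheory Filter Topology Set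
open Pool.Agent.W_7d29a1_F Pool.Agent.W_7d29a1_G Pool.Agent.W_7d29a1_SR

variable {μ : Measure ℝ} [IsProbabilityMeasure μ] {c C : ℝ} {n₀ : ℕ}

/-- The rate function near `0`. -/
theorem J_upper (h : In μ c C n₀) {a : ℝ} (ha : 0 < a)
    (H : ∀ᶠ n : ℕ in atTop, (n : ℝ) ^ (1 / 2 + a) ≤ wd μ n ∧ (n : ℝ) ^ (1 / 2 + a) * EE μ n ≤ wd μ n ^ (3 / 2 : ℝ)) :
    ∃ K v₀ : ℝ, 0 < K ∧ 0 < v₀ ∧ v₀ ≤ 1 / 2 ∧ ∀ v : ℝ, |v| ≤ v₀ → J μ v ≤ K * |v| ^ (3 / 2 + 2 * a) := by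
  obtain ⟨b, k, hb, hk, n₁, hn₁, hw⟩ := wd_ratio h
  obtain ⟨n₂, hH⟩ := eventually_atTop.1 H
  obtain ⟨N, hN⟩ : ∃ N : ℕ, N = n₁ + n₂ + 1 := ⟨_, rfl⟩
  have hvp : ∀ n, 0 < vA μ 1 n := fun n => vA_pos h.em one_pos n
  refine ⟨(2 / k) ^ (3 / 2 + 2 * a), vA μ 1 N, by positivity, hvp N, vA_le h.em zero_le_one N, fun v hv => ?_⟩
  rw [← J_abs h.em]
  rcases eq_or_lt_of_le (abs_nonneg v) with h0 | h0
  · rw [← h0, J_zero h.em]
    positivity
  -- the scale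
  have hex : ∃ m : ℕ, vA μ 1 (N + m) < |v| := by
    have h1 := (h.tv.eventually (gt_mem_nhds h0)).and (eventually_ge_atTop N)
    obtain ⟨m, hm1, hm2⟩ := h1.exists
    exact ⟨m - N, by rw [Nat.add_sub_cancel' hm2]; exact hm1⟩
  classical
  obtain ⟨m, hm, hmin⟩ : ∃ m : ℕ, vA μ 1 (N + m) < |v| ∧ ∀ j < m, ¬ vA μ 1 (N + j) < |v| :=
    ⟨Nat.find hex, Nat.find_spec hex, fun j hj => Nat.find_min hex hj⟩
  have hm0 : m ≠ 0 := by
    rintro rfl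
    rw [add_zero] at hm
    linarith
  obtain ⟨j, rfl⟩ : ∃ j, m = j + 1 := ⟨m - 1, by omega⟩
  have hj := not_lt.1 (hmin j (by omega))
  obtain ⟨n, hn⟩ : ∃ n : ℕ, n = N + j := ⟨_, rfl⟩
  rw [← hn] at hj
  have hn' : N + (j + 1) = n + 1 := by omega
  rw [hn'] at hm
  have hnN : N ≤ n := by omega
  have hn0 : (0 : ℝ) < n := by
    have : 0 < n := by omega
    exact_mod_cast this
  have hn1 : (1 : ℝ) ≤ n := by
    have : 1 ≤ n := by omega
    exact_mod_cast this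
  obtain ⟨g1, g2⟩ := hH n (by omega)
  -- the widths of `n` and `n + 1`
  have h3 : k * wd μ n ≤ wd μ (n + 1) := by
    have h4 := hw n (n + 1) (by omega) (by omega)
    refine le_trans ?_ h4
    have h5 : (1 : ℝ) ≤ (((n + 1 : ℕ) : ℝ) / n) ^ b := by
      refine Real.one_le_rpow ?_ hb.le
      rw [le_div_iff₀ hn0, one_mul]
      push_cast
      linarith
    have h6 : 0 ≤ wd μ n := by
      unfold wd
      exact mul_nonneg (hvp n).le hn0.le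
    calc k * wd μ n = k * 1 * wd μ n := by ring
      _ ≤ k * (((n + 1 : ℕ) : ℝ) / n) ^ b * wd μ n :=
        mul_le_mul_of_nonneg_right (mul_le_mul_of_nonneg_left h5 hk.le) h6
  have h7 : vA μ 1 n ≤ 2 / k * |v| := by
    unfold wd at h3
    have h8 : k * vA μ 1 n ≤ 2 * vA μ 1 (n + 1) := by
      have h9 : k * (vA μ 1 n * n) ≤ vA μ 1 (n + 1) * (2 * n) := by
        refine h3.trans (mul_le_mul_of_nonneg_left ?_ (hvp _).le)
        push_cast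
        linarith
      have h10 : k * vA μ 1 n * n ≤ 2 * vA μ 1 (n + 1) * n := by linarith
      exact le_of_mul_le_mul_right h10 hn0
    rw [div_mul_eq_mul_div, le_div_iff₀ hk]
    linarith
  -- the cost at the scale `n`
  have h11 : J μ |v| ≤ J μ (vA μ 1 n) := J_mono' h.em (abs_nonneg v) hj (vA_le h.em zero_le_one n)
  have h12 : n * J μ (vA μ 1 n) ≤ 1 * EE μ n := vA_mem h.em zero_le_one n
  obtain ⟨u, hu⟩ : ∃ u : ℝ, u = vA μ 1 n := ⟨_, rfl⟩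
  have hu0 : 0 < u := by rw [hu]; exact hvp n
  rw [← hu] at h7 h11 h12
  have hwu : wd μ n = u * n := by rw [hu]; rfl
  rw [hwu] at g1 g2
  have h13 : (n : ℝ) ^ (1 / 2 + a) * (n * J μ u) ≤ (u * n) ^ (3 / 2 : ℝ) := by
    refine le_trans ?_ g2
    exact mul_le_mul_of_nonneg_left (by linarith) (Real.rpow_nonneg hn0.le _)
  have h14 : J μ u ≤ u ^ (3 / 2 : ℝ) * (n : ℝ) ^ (-a) := by
    have e1 : (u * n) ^ (3 / 2 : ℝ) = (u ^ (3 / 2 : ℝ) * (n : ℝ) ^ (-a)) * ((n : ℝ) ^ (1 / 2 + a) * n) := by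
      rw [Real.mul_rpow hu0.le hn0.le]
      have e2 : (n : ℝ) ^ (3 / 2 : ℝ) = (n : ℝ) ^ (-a) * ((n : ℝ) ^ (1 / 2 + a) * n) := by
        nth_rewrite 4 [← Real.rpow_one (n : ℝ)]
        rw [← Real.rpow_add hn0, ← Real.rpow_add hn0]
        congr 1
        ring
      rw [e2]
      ring
    rw [e1] at h13
    have h15 : J μ u * ((n : ℝ) ^ (1 / 2 + a) * n) ≤ (u ^ (3 / 2 : ℝ) * (n : ℝ) ^ (-a)) * ((n : ℝ) ^ (1 / 2 + a) * n) := by
      refine le_trans (le_of_eq ?_) h13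
      ring
    exact le_of_mul_le_mul_right h15 (mul_pos (Real.rpow_pos_of_pos hn0 _) hn0)
  -- `n ^ (- 1 / 2) ≤ u`
  have h16 : (n : ℝ) ^ (-(1 / 2) : ℝ) ≤ u := by
    have e1 : (n : ℝ) ^ (-(1 / 2) : ℝ) = (n : ℝ) ^ (1 / 2 : ℝ) / n := by
      rw [eq_div_iff hn0.ne']
      nth_rewrite 2 [← Real.rpow_one (n : ℝ)]
      rw [← Real.rpow_add hn0]
      norm_num
    rw [e1, div_le_iff₀ hn0]
    exact (Real.rpow_le_rpow_of_exponent_le hn1 (by linarith)).trans g1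
  have h17 : (n : ℝ) ^ (-a) ≤ u ^ (2 * a) := by
    have h18 := Real.rpow_le_rpow (Real.rpow_nonneg hn0.le _) h16 (show 0 ≤ 2 * a by positivity)
    rw [← Real.rpow_mul hn0.le] at h18
    refine le_trans (le_of_eq ?_) h18
    congr 1
    ring
  have h19 : J μ u ≤ u ^ (3 / 2 + 2 * a) := by
    rw [Real.rpow_add hu0]
    exact h14.trans (mul_le_mul_of_nonneg_left h17 (Real.rpow_nonneg hu0.le _))
  refine h11.trans (h19.trans ?_)
  rw [← Real.mul_rpow (by positivity) (abs_nonneg v)]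
  exact Real.rpow_le_rpow hu0.le h7 (by positivity)

/-- The free energy from the rate function. -/
theorem lam_lower {lam J : ℝ → ℝ} {K v₀ b : ℝ} (hK : 0 < K) (hv₀ : 0 < v₀) (hv1 : v₀ < 1) (hb : 0 < b)
    (hL : ∀ v, |v| < 1 → IsLUB (Set.range fun h => h * v - lam h) (J v))
    (hJ : ∀ v, |v| ≤ v₀ → J v ≤ K * |v| ^ (3 / 2 + b)) :
    ∃ k h₀ : ℝ, 0 < k ∧ 0 < h₀ ∧ ∀ h : ℝ, |h| ≤ h₀ → k * |h| ^ (1 + 1 / (1 / 2 + b)) ≤ lam h := by
  have hp : 0 < 1 / 2 + b := by positivity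
  refine ⟨1 / 2 * (1 / (2 * K)) ^ (1 / (1 / 2 + b)), 2 * K * v₀ ^ (1 / 2 + b), by positivity, by positivity, fun h hh => ?_⟩
  obtain ⟨u, hu⟩ : ∃ u : ℝ, u = (|h| / (2 * K)) ^ (1 / (1 / 2 + b)) := ⟨_, rfl⟩
  have hq0 : 0 ≤ |h| / (2 * K) := by positivity
  have hu0 : 0 ≤ u := by rw [hu]; positivity
  have hup : u ^ (1 / 2 + b) = |h| / (2 * K) := by
    rw [hu, ← Real.rpow_mul hq0, one_div_mul_cancel hp.ne', Real.rpow_one]
  have huv : u ≤ v₀ := by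
    have h1 : |h| / (2 * K) ≤ v₀ ^ (1 / 2 + b) := by
      rw [div_le_iff₀ (by positivity)]
      linarith
    rw [hu]
    calc (|h| / (2 * K)) ^ (1 / (1 / 2 + b)) ≤ (v₀ ^ (1 / 2 + b)) ^ (1 / (1 / 2 + b)) :=
          Real.rpow_le_rpow hq0 h1 (by positivity)
      _ = v₀ := by rw [← Real.rpow_mul hv₀.le, mul_one_div_cancel hp.ne', Real.rpow_one]
  -- the velocity of the sign of `h`
  obtain ⟨v, hv, hhv⟩ : ∃ v : ℝ, |v| = u ∧ h * v = |h| * u := by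
    rcases le_total 0 h with h0 | h0
    · exact ⟨u, abs_of_nonneg hu0, by rw [abs_of_nonneg h0]⟩
    · exact ⟨-u, by rw [abs_neg, abs_of_nonneg hu0], by rw [abs_of_nonpos h0]; ring⟩
  have h1 : h * v - lam h ≤ J v := (hL v (by rw [hv]; linarith)).1 (Set.mem_range_self h)
  have h2 := hJ v (by rw [hv]; exact huv)
  rw [hhv] at h1
  rw [hv] at h2
  have e1 : u ^ (3 / 2 + b) = u * (|h| / (2 * K)) := by
    rcases eq_or_lt_of_le hu0 with h3 | h3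
    · rw [← h3, Real.zero_rpow (by positivity), zero_mul]
    · have e2 : (3 / 2 + b : ℝ) = 1 + (1 / 2 + b) := by ring
      rw [e2, Real.rpow_add h3, Real.rpow_one, hup]
  rw [e1] at h2
  have e3 : K * (u * (|h| / (2 * K))) = 1 / 2 * (|h| * u) := by field_simp
  rw [e3] at h2
  have e4 : 1 / 2 * (1 / (2 * K)) ^ (1 / (1 / 2 + b)) * |h| ^ (1 + 1 / (1 / 2 + b)) = 1 / 2 * (|h| * u) := by
    rcases eq_or_lt_of_le (abs_nonneg h) with h3 | h3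
    · rw [← h3, Real.zero_rpow (by positivity)]
      ring
    · rw [hu, Real.rpow_add h3, Real.rpow_one, div_eq_mul_one_div |h| (2 * K), Real.mul_rpow h3.le (by positivity)]
      ring
  rw [e4]
  linarith

end Pool.Agent.W_7d29a1_Z57
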