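import Pool.Agent.W_7d29a1_Z57.AlgE57
import Pool.Agent.W_7d29a1_Z.StpK
import Pool.Agent.W_7d29a1_Z3.Eb3

/-!
STORM Z, SECOND STOREY: the wiring. The property `AdmE` of the windows in terms of the response `Rsp` of the patterns; the fields `mono`,
`step`, `top` of the interface `IfaceE`.
-/

namespace Pool.Agent.W_7d29a1_Z57

open MeasureTheory ProbabilityTheory Filter Topology Finset
open Pool.Agent.W_7d29a1_F Pool.Agent.W_7d29a1_X Pool.Agent.W_7d29a1_G Pool.Agent.W_7d29a1_Z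
open Pool.Agent.W_7d29a1_SR (In wd)
open Pool.Agent.W_7d29a1_Z.StpK (OkayQ aStepU)
open scoped ENNReal

noncomputable section

variable {μ : Measure ℝ}

/-- The number of the unit jumps of one dislocation of the size of the width of the scale `2 ^ a`. -/
def uz (μ : Measure ℝ) (a : ℕ) : ℕ := ⌊wd' μ (2 ^ a)⌋₊

/-- At the scale `2 ^ k` of the window `[2 ^ a, 2 ^ (a + Λ)]` there is a pattern of `z` dislocations whose response is at most `A`. -/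
def AdmE (μ : Measure ℝ) (c : ℝ) (a Λ k z : ℕ) (A : ℝ) : Prop :=
  ∃ I : Finset ℕ, I ⊆ Core (2 ^ k) ∧ I.card = z * uz μ a ∧
    Rsp μ (2 ^ k) I 1 ((2 : ℝ) ^ (c * Λ) * wd' μ (2 ^ k)) A (Real.exp (-(2 : ℝ) ^ (c * Λ)))

theorem Rsp_le {t : ℕ} {I : Finset ℕ} {j : ℤ} {w w' A A' p p' : ℝ} (hw : w' ≤ w) (hA : A ≤ A') (hp : p ≤ p')
    (h : Rsp μ t I j w A p) : Rsp μ t I j w' A' p' := by
  refine le_trans (measure_mono ?_) (h.trans (ENNReal.ofReal_le_ofReal hp))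
  rintro η ⟨u, u', h1, h2, h3, y, h4, h5⟩
  exact ⟨u, u', h1, h2, h3, y, h4.trans (by linarith), hA.trans_lt h5⟩

theorem wd'_one (n : ℕ) : 1 ≤ wd' μ n := le_max_left _ _

theorem EE'_one (n : ℕ) : 1 ≤ EE' μ n := le_max_left _ _

theorem uz_one (a : ℕ) : 1 ≤ uz μ a := (Nat.one_le_floor_iff _).2 (wd'_one _)

theorem uz_le (a : ℕ) : (uz μ a : ℝ) ≤ wd' μ (2 ^ a) := Nat.floor_le (zero_le_one.trans (wd'_one _))

theorem le_uz (a : ℕ) : wd' μ (2 ^ a) ≤ 2 * uz μ a := by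
  have h1 : wd' μ (2 ^ a) < uz μ a + 1 := Nat.lt_floor_add_one _
  have h2 : (1 : ℝ) ≤ uz μ a := by exact_mod_cast uz_one a
  linarith

theorem AdmE_mono {c c' : ℝ} {a Λ k z : ℕ} {A A' : ℝ} (hc : c' ≤ c) (hA : A ≤ A') (h : AdmE μ c a Λ k z A) :
    AdmE μ c' a Λ k z A' := by
  obtain ⟨I, h1, h2, h3⟩ := h
  have h4 : (2 : ℝ) ^ (c' * Λ) ≤ (2 : ℝ) ^ (c * Λ) := p2mono (mul_le_mul_of_nonneg_right hc (Nat.cast_nonneg _))
  exact ⟨I, h1, h2, Rsp_le (mul_le_mul_of_nonneg_right h4 (zero_le_one.trans (wd'_one _))) hA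
    (Real.exp_le_exp.2 (neg_le_neg h4)) h3⟩

/-- The powers of the scale `2 ^ m`, `m ≤ 2 a`, in a window of the length `Λ ≥ κ a`. -/
theorem pow_scale {κ e : ℝ} (hκ : 0 < κ) (he : 0 ≤ e) {a Λ m : ℕ} (h1 : κ * a ≤ Λ) (hm : m ≤ 2 * a) :
    ((2 ^ m : ℕ) : ℝ) ^ (e * κ / 2) ≤ (2 : ℝ) ^ (e * Λ) := by
  have e1 : ((2 ^ m : ℕ) : ℝ) = (2 : ℝ) ^ (m : ℝ) := by
    rw [Real.rpow_natCast]
    push_cast
    ring
  rw [e1, ← Real.rpow_mul (by norm_num)]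
  refine p2mono ?_
  have h2 : (m : ℝ) ≤ 2 * a := by exact_mod_cast hm
  have h3 : 0 ≤ e * κ / 2 := by positivity
  have h4 := mul_le_mul_of_nonneg_right h2 h3
  have h5 := mul_le_mul_of_nonneg_left h1 he
  linarith

/-- The powers of the scale `2 ^ m`, `m ≥ Λ`. -/
theorem pow_scale' {e : ℝ} (he : 0 ≤ e) {Λ m : ℕ} (hm : Λ ≤ m) : (2 : ℝ) ^ (e * Λ) ≤ ((2 ^ m : ℕ) : ℝ) ^ e := by
  have e1 : ((2 ^ m : ℕ) : ℝ) = (2 : ℝ) ^ (m : ℝ) := by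
    rw [Real.rpow_natCast]
    push_cast
    ring
  rw [e1, ← Real.rpow_mul (by norm_num)]
  refine p2mono ?_
  have h2 : (Λ : ℝ) ≤ m := by exact_mod_cast hm
  have h4 := mul_le_mul_of_nonneg_left h2 he
  linarith

variable [IsProbabilityMeasure μ] {c₁ C₁ : ℝ} {n₀ : ℕ}

/-- THE STEP of the interface. -/
theorem step_wire (h : In μ c₁ C₁ n₀) (hF : HF2 μ) (hO : OkayQ μ fun t => (EE' μ t)⁻¹) :
    ∀ κ c e : ℝ, 0 < κ → 0 < c → 0 < e → ∃ c' : ℝ, 0 < c' ∧ ∃ a₀ : ℕ, ∀ a Λ x y z n : ℕ, ∀ A : ℝ, a₀ ≤ a → κ * a ≤ Λ →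
      Λ ≤ a → x ≤ Λ → κ * Λ ≤ y → κ * Λ ≤ (x : ℝ) - y → 1 ≤ z → (z : ℝ) ≤ (2 : ℝ) ^ (y : ℝ) → EE' μ (2 ^ a) ≤ A →
      A ≤ EE' μ (2 ^ a) * (2 : ℝ) ^ (Λ : ℝ) → 1 ≤ n → (2 : ℝ) ^ (e * Λ) * n ≤ (2 : ℝ) ^ ((x : ℝ) - y) →
      (n : ℝ) * z ≤ (2 : ℝ) ^ (x : ℝ) →
      (2 : ℝ) ^ (e * Λ) * (z * wd' μ (2 ^ a)) ≤ wd' μ (2 ^ (a + y)) →
      (2 : ℝ) ^ (e * Λ) * (z * (wd' μ (2 ^ a) * EE' μ (2 ^ (a + y)))) ≤ A * wd' μ (2 ^ (a + y)) →
      (2 : ℝ) ^ (e * Λ) * (n * z * wd' μ (2 ^ a)) ≤ wd' μ (2 ^ (a + x)) → AdmE μ c a Λ (a + y) z A →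
      AdmE μ c' a Λ (a + x) (n * z) ((2 : ℝ) ^ (e * Λ) * (n / (2 : ℝ) ^ ((x : ℝ) - y) * (EE' μ (2 ^ (a + x)) +
        (2 : ℝ) ^ (((x : ℝ) - y) / 2) * A + (2 : ℝ) ^ ((x : ℝ) - y) * (A ^ 2 / EE' μ (2 ^ (a + y)))) +
        (n : ℝ) ^ (1 / 2 : ℝ) * A)) := by
  intro κ c e hκ hc he
  obtain ⟨δ', c', hδ', hc', hS⟩ := aStepU h hF (q := fun t => (EE' μ t)⁻¹)
    (fun t _ => inv_nonneg.2 (zero_le_one.trans (EE'_one t))) hO (1 / 2) (e * κ / 2) (c * κ / 2) (c * κ / 2) (by norm_num)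
    (by norm_num) (by positivity) (by positivity) (by positivity)
  obtain ⟨R₀, hR₀⟩ := eventually_atTop.1 hS
  obtain ⟨n₁, hn₁⟩ := wd'_eq h
  obtain ⟨ae, Ke, hae, -, hKe, hEp⟩ := EE'_pow h
  obtain ⟨a₁, ha₁⟩ : ∃ a₁ : ℕ, Real.logb 2 (Ke * EE' μ 1) / (κ * κ) < a₁ := exists_nat_gt _
  refine ⟨min δ' c', lt_min hδ' hc', R₀ + n₁ + a₁ + 1, fun a Λ x y z n A ha hΛ1 hΛ2 hx hy hxy hz hzy hEA hAE hn hnx hnz hzw
    h18 hnzw hG => ?_⟩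
  have hlt : ∀ m : ℕ, m ≤ 2 ^ m := fun m => Nat.lt_two_pow_self.le
  have hbig : ∀ m : ℕ, a ≤ m → R₀ ≤ 2 ^ m ∧ n₁ ≤ 2 ^ m := fun m hm => ⟨by have := hlt m; omega, by have := hlt m; omega⟩
  have eqw : ∀ m : ℕ, a ≤ m → wd' μ (2 ^ m) = wd μ (2 ^ m) := fun m hm => (hn₁ _ (hbig m hm).2).1
  have eqE : ∀ m : ℕ, a ≤ m → EE' μ (2 ^ m) = EE μ (2 ^ m) := fun m hm => (hn₁ _ (hbig m hm).2).2.1
  have hxy' : y ≤ x := by
    have h1 : (0 : ℝ) ≤ κ * Λ := by positivity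
    have h2 : (y : ℝ) ≤ x := by linarith
    exact_mod_cast h2
  have hcast : ∀ m : ℕ, ((2 ^ m : ℕ) : ℝ) = (2 : ℝ) ^ (m : ℝ) := fun m => by
    rw [Real.rpow_natCast]
    push_cast
    ring
  have hRe : ((2 ^ (a + x) : ℕ) : ℝ) ^ (e * κ / 2) ≤ (2 : ℝ) ^ (e * Λ) := pow_scale hκ he.le hΛ1 (by omega)
  have hE0 : ∀ m, 0 < EE' μ m := fun m => lt_of_lt_of_le one_pos (EE'_one m)
  have hw0 : ∀ m, 0 < wd' μ m := fun m => lt_of_lt_of_le one_pos (wd'_one m)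
  have hA1 : 1 ≤ A := (EE'_one _).trans hEA
  have hA0 : 0 < A := by linarith
  have hz0 : (0 : ℝ) < z := by exact_mod_cast hz
  have hn0 : (0 : ℝ) < n := by exact_mod_cast hn
  have hu := uz_le (μ := μ) a
  have hu0 : (0 : ℝ) ≤ uz μ a := Nat.cast_nonneg _
  -- `A ≤ R ^ 2`
  have hAR : A ≤ ((2 ^ (a + x) : ℕ) : ℝ) ^ 2 := by
    have h1 := (hEp 1 (2 ^ a) le_rfl (Nat.one_le_pow _ _ (by norm_num))).2.2
    have h2 : EE' μ (2 ^ a) ≤ (2 : ℝ) ^ (a : ℝ) * (Ke * EE' μ 1) := by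
      refine h1.trans ?_
      rw [Nat.cast_one, div_one, hcast]
      have h3 : Real.sqrt ((2 : ℝ) ^ (a : ℝ)) ≤ (2 : ℝ) ^ (a : ℝ) := by
        rw [Real.sqrt_le_left (p2pos _).le]
        have := p2one (Nat.cast_nonneg a : (0 : ℝ) ≤ (a : ℝ))
        nlinarith
      have h4 : 0 ≤ Ke * EE' μ 1 := mul_nonneg (by linarith) (hE0 1).le
      have h5 := mul_le_mul_of_nonneg_right h3 h4
      linarith
    have hKE : 0 < Ke * EE' μ 1 := mul_pos (by linarith) (hE0 1)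
    have h3 : Ke * EE' μ 1 ≤ (2 : ℝ) ^ (x : ℝ) := by
      have h4 : Real.logb 2 (Ke * EE' μ 1) ≤ x := by
        have h5 : (a₁ : ℝ) ≤ a := by
          have : a₁ ≤ a := by omega
          exact_mod_cast this
        rw [div_lt_iff₀ (by positivity)] at ha₁
        have h6 : κ * κ * a₁ ≤ κ * (κ * a) := by
          rw [mul_assoc]
          exact mul_le_mul_of_nonneg_left (mul_le_mul_of_nonneg_left h5 hκ.le) hκ.le
        have h7 : κ * (κ * a) ≤ κ * Λ := mul_le_mul_of_nonneg_left hΛ1 hκ.le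
        have h8 : (0 : ℝ) ≤ y := Nat.cast_nonneg _
        linarith
      have h5 := p2mono h4
      rwa [Real.rpow_logb two_pos (by norm_num) hKE] at h5
    have e2 : ((2 ^ (a + x) : ℕ) : ℝ) ^ 2 = (2 : ℝ) ^ ((a : ℝ) + a + x + x) := by
      rw [hcast, ← Real.rpow_natCast _ 2, ← Real.rpow_mul (by norm_num)]
      congr 1
      push_cast
      ring
    rw [e2]
    calc A ≤ EE' μ (2 ^ a) * (2 : ℝ) ^ (Λ : ℝ) := hAE
      _ ≤ (2 : ℝ) ^ (a : ℝ) * (2 : ℝ) ^ (x : ℝ) * (2 : ℝ) ^ (Λ : ℝ) := by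
          refine mul_le_mul_of_nonneg_right (h2.trans ?_) (p2pos _).le
          exact mul_le_mul_of_nonneg_left h3 (p2pos _).le
      _ = (2 : ℝ) ^ ((a : ℝ) + x + Λ) := by rw [p2, p2]
      _ ≤ _ := p2mono (by
          have h4 : (Λ : ℝ) ≤ a := by exact_mod_cast hΛ2
          have h5 : (0 : ℝ) ≤ x := Nat.cast_nonneg _
          linarith)
  obtain ⟨I, hI1, hI2, hI3⟩ := hG
  have hts : ((2 ^ (a + y) : ℕ) : ℝ) ^ (c * κ / 2) ≤ (2 : ℝ) ^ (c * Λ) := pow_scale hκ hc.le hΛ1 (by omega)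
  have hG81 : _root_.W_7d29a1_Z.Step81.G81 μ (2 ^ (a + y)) (z * uz μ a) (c * κ / 2) A
      (Real.exp (-((2 ^ (a + y) : ℕ) : ℝ) ^ (c * κ / 2))) := by
    refine ⟨I, hI1, hI2, Rsp_le ?_ le_rfl (Real.exp_le_exp.2 (neg_le_neg hts)) hI3⟩
    rw [← eqw (a + y) (by omega)]
    exact mul_le_mul_of_nonneg_right hts (hw0 _).le
  have hbt : ((2 ^ (a + x) : ℕ) : ℝ) ^ (1 / 2 : ℝ) ≤ ((2 ^ (a + y) : ℕ) : ℝ) := by
    rw [hcast, hcast, ← Real.rpow_mul (by norm_num)]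
    refine p2mono ?_
    have h4 : (x : ℝ) ≤ a := by
      have : x ≤ a := by omega
      exact_mod_cast this
    have h5 : (0 : ℝ) ≤ y := Nat.cast_nonneg _
    push_cast
    linarith
  have hout := hR₀ (2 ^ (a + x)) (hbig _ (by omega)).1 (2 ^ (a + y)) (z * uz μ a) n A hbt hn hA1 hAR (by
      refine (mul_le_mul_of_nonneg_right hRe (by positivity)).trans ?_
      rw [hcast, hcast]
      calc (2 : ℝ) ^ (e * Λ) * (n * (2 : ℝ) ^ ((a + y : ℕ) : ℝ)) = ((2 : ℝ) ^ (e * Λ) * n) * (2 : ℝ) ^ ((a + y : ℕ) : ℝ) := by ring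
        _ ≤ (2 : ℝ) ^ ((x : ℝ) - y) * (2 : ℝ) ^ ((a + y : ℕ) : ℝ) := mul_le_mul_of_nonneg_right hnx (p2pos _).le
        _ = (2 : ℝ) ^ ((a + x : ℕ) : ℝ) := by
            rw [p2]
            congr 1
            push_cast
            ring) (by
      rw [← eqw (a + x) (by omega)]
      refine le_trans ?_ hnzw
      refine (mul_le_mul_of_nonneg_right hRe (by positivity)).trans ?_
      refine mul_le_mul_of_nonneg_left ?_ (p2pos _).le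
      push_cast
      calc (n : ℝ) * (z * uz μ a) = n * z * uz μ a := by ring
        _ ≤ _ := mul_le_mul_of_nonneg_left hu (by positivity)) (by
      rw [← eqw (a + y) (by omega)]
      refine (mul_le_mul_of_nonneg_right hRe (by positivity)).trans ?_
      have k1 : (2 : ℝ) ^ (e * Λ) * ((z * uz μ a : ℕ) : ℝ) ≤ (2 : ℝ) ^ (e * Λ) * (z * wd' μ (2 ^ a)) := by
        push_cast
        exact mul_le_mul_of_nonneg_left (mul_le_mul_of_nonneg_left hu hz0.le) (p2pos _).le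
      refine k1.trans ?_
      have k2 : A * ((EE' μ (2 ^ (a + y)))⁻¹ * wd' μ (2 ^ (a + y))) = A * wd' μ (2 ^ (a + y)) / EE' μ (2 ^ (a + y)) := by
        field_simp
      rw [k2, le_div_iff₀ (hE0 _)]
      refine le_trans (le_of_eq ?_) h18
      ring) (by
      rw [← eqw (a + y) (by omega)]
      refine (mul_le_mul_of_nonneg_right hRe (by positivity)).trans ?_
      refine le_trans ?_ hzw
      push_cast
      exact mul_le_mul_of_nonneg_left (mul_le_mul_of_nonneg_left hu hz0.le) (p2pos _).le) hG81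
  obtain ⟨I', hI1', hI2', hI3'⟩ := hout
  have hm1 : min δ' c' ≤ δ' := min_le_left _ _
  have hm2 : min δ' c' ≤ c' := min_le_right _ _
  have hm0 : 0 < min δ' c' := lt_min hδ' hc'
  refine ⟨I', hI1', by rw [hI2']; ring, Rsp_le ?_ ?_ ?_ hI3'⟩
  · rw [eqw (a + x) (by omega)]
    refine mul_le_mul_of_nonneg_right ?_ (by rw [← eqw (a + x) (by omega)]; exact (hw0 _).le)
    exact (p2mono (mul_le_mul_of_nonneg_right hm1 (Nat.cast_nonneg _))).trans (pow_scale' hδ'.le (by omega))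
  · -- the response
    have e3 : ((2 ^ (a + x) : ℕ) : ℝ) / ((2 ^ (a + y) : ℕ) : ℝ) = (2 : ℝ) ^ ((x : ℝ) - y) := by
      rw [hcast, hcast, ← Real.rpow_sub two_pos]
      congr 1
      push_cast
      ring
    have e4 : (n : ℝ) * ((2 ^ (a + y) : ℕ) : ℝ) / ((2 ^ (a + x) : ℕ) : ℝ) = n / (2 : ℝ) ^ ((x : ℝ) - y) := by
      rw [← e3]
      have : ((2 ^ (a + x) : ℕ) : ℝ) ≠ 0 := by positivity
      have : ((2 ^ (a + y) : ℕ) : ℝ) ≠ 0 := by positivity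
      field_simp
    have e5 : ((2 : ℝ) ^ ((x : ℝ) - y)) ^ (1 / 2 : ℝ) = (2 : ℝ) ^ (((x : ℝ) - y) / 2) := by
      rw [← Real.rpow_mul (by norm_num)]
      congr 1
      ring
    rw [← eqE (a + x) (by omega), e3, e4, e5]
    have k0 : 0 ≤ (n : ℝ) / (2 : ℝ) ^ ((x : ℝ) - y) * (EE' μ (2 ^ (a + x)) + (2 : ℝ) ^ (((x : ℝ) - y) / 2) * A +
        (2 : ℝ) ^ ((x : ℝ) - y) * (A ^ 2 / EE' μ (2 ^ (a + y)))) + (n : ℝ) ^ (1 / 2 : ℝ) * A := by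
      have := (hE0 (2 ^ (a + x))).le
      have := (hE0 (2 ^ (a + y))).le
      positivity
    refine le_trans (le_of_eq ?_) (mul_le_mul_of_nonneg_right hRe k0)
    congr 1
    congr 1
    congr 1
    rw [add_assoc]
    congr 1
    congr 1
    rw [div_eq_mul_inv (A ^ 2) _]
    ring
  · refine Real.exp_le_exp.2 (neg_le_neg ?_)
    exact (p2mono (mul_le_mul_of_nonneg_right hm2 (Nat.cast_nonneg _))).trans (pow_scale' hc'.le (by omega))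

/-- THE TOP of the interface. -/
theorem top_wire (h : In μ c₁ C₁ n₀) : ∀ κ c e : ℝ, 0 < κ → 0 < c → 0 < e → ∃ a₀ : ℕ, ∀ a Λ z : ℕ, ∀ A : ℝ, a₀ ≤ a →
    κ * a ≤ Λ → Λ ≤ a → 1 ≤ z → EE' μ (2 ^ a) ≤ A → (2 : ℝ) ^ (e * Λ) * (z * wd' μ (2 ^ a)) ≤ wd' μ (2 ^ (a + Λ)) →
    AdmE μ c a Λ (a + Λ) z A →
    EE' μ (2 ^ (a + Λ)) * (z * wd' μ (2 ^ a)) ≤ (2 : ℝ) ^ (e * Λ) * (wd' μ (2 ^ (a + Λ)) * A) := by
  intro κ c e hκ hc he
  obtain ⟨K, n₂, hK, hE⟩ := Pool.Agent.W_7d29a1_Z3.eb h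
  obtain ⟨n₁, hn₁⟩ := wd'_eq h
  have hab := Pool.Agent.W_7d29a1_Z22.absorb (4 * K) (2 * (1 / κ + 1)) (b := 1 / 2) (g := c) (by norm_num) hc
  obtain ⟨L₀, hL₀⟩ := eventually_atTop.1 hab
  obtain ⟨a₁, ha₁⟩ : ∃ a₁ : ℕ, (Real.logb 2 (4 * K) / (e * κ) + Real.logb 2 K / (c * κ) + L₀ / κ) < a₁ := exists_nat_gt _
  refine ⟨n₁ + n₂ + a₁ + 1, fun a Λ z A ha hΛ1 hΛ2 hz hEA hzw hG => ?_⟩
  have hlt : ∀ m : ℕ, m ≤ 2 ^ m := fun m => Nat.lt_two_pow_self.le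
  have hbig : ∀ m : ℕ, a ≤ m → n₂ ≤ 2 ^ m ∧ n₁ ≤ 2 ^ m := fun m hm => ⟨by have := hlt m; omega, by have := hlt m; omega⟩
  have eqw : ∀ m : ℕ, a ≤ m → wd' μ (2 ^ m) = wd μ (2 ^ m) := fun m hm => (hn₁ _ (hbig m hm).2).1
  have eqE : ∀ m : ℕ, a ≤ m → EE' μ (2 ^ m) = EE μ (2 ^ m) := fun m hm => (hn₁ _ (hbig m hm).2).2.1
  have hw0 : ∀ m, 0 < wd' μ m := fun m => lt_of_lt_of_le one_pos (wd'_one m)
  have hA1 : 1 ≤ A := (EE'_one _).trans hEA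
  have hz0 : (0 : ℝ) < z := by exact_mod_cast hz
  have hK4 : 0 ≤ Real.logb 2 (4 * K) := Real.logb_nonneg (by norm_num) (by linarith)
  have hK1 : 0 ≤ Real.logb 2 K := Real.logb_nonneg (by norm_num) hK
  have ha1 : (a₁ : ℝ) ≤ a := by
    have : a₁ ≤ a := by omega
    exact_mod_cast this
  have q1 : 0 ≤ Real.logb 2 (4 * K) / (e * κ) := by positivity
  have q2 : 0 ≤ Real.logb 2 K / (c * κ) := by positivity
  have q3 : 0 ≤ (L₀ : ℝ) / κ := by positivity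
  have r1 : Real.logb 2 (4 * K) ≤ e * Λ := by
    have k1 : Real.logb 2 (4 * K) / (e * κ) ≤ a := by linarith
    rw [div_le_iff₀ (by positivity)] at k1
    have k2 := mul_le_mul_of_nonneg_left hΛ1 he.le
    linarith
  have r2 : Real.logb 2 K ≤ c * Λ := by
    have k1 : Real.logb 2 K / (c * κ) ≤ a := by linarith
    rw [div_le_iff₀ (by positivity)] at k1
    have k2 := mul_le_mul_of_nonneg_left hΛ1 hc.le
    linarith
  have r3 : L₀ ≤ Λ := by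
    have k1 : (L₀ : ℝ) / κ ≤ a := by linarith
    rw [div_le_iff₀ hκ] at k1
    have k2 : (L₀ : ℝ) ≤ Λ := by linarith
    exact_mod_cast k2
  have s1 : 4 * K ≤ (2 : ℝ) ^ (e * Λ) := by
    have := p2mono r1
    rwa [Real.rpow_logb two_pos (by norm_num) (by linarith)] at this
  have s2 : K ≤ (2 : ℝ) ^ (c * Λ) := by
    have := p2mono r2
    rwa [Real.rpow_logb two_pos (by norm_num) (by linarith)] at this
  obtain ⟨I, hI1, hI2, hI3⟩ := hG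
  have hI2' : (I.card : ℝ) = z * uz μ a := by rw [hI2]; push_cast; ring
  have hu1 : (1 : ℝ) ≤ uz μ a := by exact_mod_cast uz_one a
  have hIc1 : 1 ≤ I.card := by
    rw [hI2]
    exact Nat.mul_pos hz (uz_one a)
  have hIcw : (I.card : ℝ) ≤ wd μ (2 ^ (a + Λ)) := by
    rw [← eqw (a + Λ) (by omega), hI2']
    have k1 : (z : ℝ) * uz μ a ≤ z * wd' μ (2 ^ a) := mul_le_mul_of_nonneg_left (uz_le a) hz0.le
    have k2 : 1 * (z * wd' μ (2 ^ a)) ≤ (2 : ℝ) ^ (e * Λ) * (z * wd' μ (2 ^ a)) :=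
      mul_le_mul_of_nonneg_right (p2one (by positivity)) (mul_pos hz0 (hw0 _)).le
    linarith
  have hmain := hE (2 ^ (a + Λ)) I ((2 : ℝ) ^ (c * Λ) * wd' μ (2 ^ (a + Λ))) A (Real.exp (-(2 : ℝ) ^ (c * Λ)))
    (hbig _ (by omega)).1 hI1 hIc1 hIcw (by
      rw [← eqw (a + Λ) (by omega)]
      exact mul_le_mul_of_nonneg_right s2 (hw0 _).le) (by linarith) (Real.exp_pos _).le hI3
  rw [← eqw (a + Λ) (by omega), ← eqE (a + Λ) (by omega)] at hmain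
  -- the error
  have herr : K * (((2 ^ (a + Λ) : ℕ) : ℝ) + 1) ^ 2 * Real.sqrt (Real.exp (-(2 : ℝ) ^ (c * Λ))) ≤ 1 := by
    have k1 := hL₀ (2 ^ Λ) (le_trans r3 (hlt Λ))
    have e1 : ((2 ^ Λ : ℕ) : ℝ) = (2 : ℝ) ^ (Λ : ℝ) := by
      rw [Real.rpow_natCast]
      push_cast
      ring
    have e1' : ((2 ^ (a + Λ) : ℕ) : ℝ) = (2 : ℝ) ^ ((a + Λ : ℕ) : ℝ) := by
      rw [Real.rpow_natCast]
      push_cast
      ring
    have e2 : (((2 ^ Λ : ℕ) : ℝ)) ^ (2 * (1 / κ + 1)) = (2 : ℝ) ^ ((Λ : ℝ) * (2 * (1 / κ + 1))) := by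
      rw [e1, ← Real.rpow_mul (by norm_num)]
    have e3 : (((2 ^ Λ : ℕ) : ℝ)) ^ c = (2 : ℝ) ^ (c * Λ) := by
      rw [e1, ← Real.rpow_mul (by norm_num), mul_comm]
    rw [e2, e3] at k1
    have e4 : Real.sqrt (Real.exp (-(2 : ℝ) ^ (c * Λ))) = Real.exp (-(1 / 2 * (2 : ℝ) ^ (c * Λ))) := by
      rw [Real.sqrt_eq_rpow, ← Real.exp_mul]
      congr 1
      ring
    rw [e4]
    have k2 : Real.exp (-((((2 ^ Λ : ℕ) : ℝ)) ^ (c / 2))) ≤ 1 := Real.exp_le_one_iff.2 (neg_nonpos.2 (by positivity))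
    have k3 : K * (((2 ^ (a + Λ) : ℕ) : ℝ) + 1) ^ 2 ≤ 4 * K * (2 : ℝ) ^ ((Λ : ℝ) * (2 * (1 / κ + 1))) := by
      have k4 : ((2 ^ (a + Λ) : ℕ) : ℝ) + 1 ≤ 2 * (2 : ℝ) ^ ((a + Λ : ℕ) : ℝ) := by
        rw [e1']
        have := p2one (Nat.cast_nonneg (a + Λ) : (0 : ℝ) ≤ ((a + Λ : ℕ) : ℝ))
        linarith
      have k5 : (2 : ℝ) ^ ((a + Λ : ℕ) : ℝ) * (2 : ℝ) ^ ((a + Λ : ℕ) : ℝ) ≤ (2 : ℝ) ^ ((Λ : ℝ) * (2 * (1 / κ + 1))) := by
        rw [p2]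
        refine p2mono ?_
        push_cast
        have k6 : (a : ℝ) ≤ Λ * (1 / κ) := by
          rw [mul_one_div, le_div_iff₀ hκ]
          linarith
        linarith
      have k6 : (((2 ^ (a + Λ) : ℕ) : ℝ) + 1) ^ 2 ≤ (2 * (2 : ℝ) ^ ((a + Λ : ℕ) : ℝ)) ^ 2 :=
        pow_le_pow_left₀ (by positivity) k4 2
      have k7 : (2 * (2 : ℝ) ^ ((a + Λ : ℕ) : ℝ)) ^ 2 = 4 * ((2 : ℝ) ^ ((a + Λ : ℕ) : ℝ) * (2 : ℝ) ^ ((a + Λ : ℕ) : ℝ)) := by ring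
      have k8 : K * (((2 ^ (a + Λ) : ℕ) : ℝ) + 1) ^ 2 ≤ K * (4 * (2 : ℝ) ^ ((Λ : ℝ) * (2 * (1 / κ + 1)))) := by
        refine mul_le_mul_of_nonneg_left ?_ (by linarith)
        rw [k7] at k6
        linarith
      linarith
    calc K * (((2 ^ (a + Λ) : ℕ) : ℝ) + 1) ^ 2 * Real.exp (-(1 / 2 * (2 : ℝ) ^ (c * Λ))) ≤
        4 * K * (2 : ℝ) ^ ((Λ : ℝ) * (2 * (1 / κ + 1))) * Real.exp (-(1 / 2 * (2 : ℝ) ^ (c * Λ))) :=
          mul_le_mul_of_nonneg_right k3 (Real.exp_pos _).le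
      _ ≤ _ := k1.trans k2
  have hcard0 : (0 : ℝ) < I.card := by exact_mod_cast hIc1
  have t1 : EE' μ (2 ^ (a + Λ)) ≤ K * (wd' μ (2 ^ (a + Λ)) / I.card) * (2 * A) := by
    refine hmain.trans (mul_le_mul_of_nonneg_left (by linarith) ?_)
    have := (hw0 (2 ^ (a + Λ))).le
    positivity
  have t2 : (z : ℝ) * wd' μ (2 ^ a) ≤ 2 * I.card := by
    rw [hI2']
    have := mul_le_mul_of_nonneg_left (le_uz (μ := μ) a) hz0.le
    linarith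
  calc EE' μ (2 ^ (a + Λ)) * (z * wd' μ (2 ^ a)) ≤ K * (wd' μ (2 ^ (a + Λ)) / I.card) * (2 * A) * (2 * I.card) := by
        refine mul_le_mul t1 t2 (mul_pos hz0 (hw0 _)).le ?_
        have := (hw0 (2 ^ (a + Λ))).le
        positivity
    _ = 4 * K * (wd' μ (2 ^ (a + Λ)) * A) := by
        field_simp
        ring
    _ ≤ _ := mul_le_mul_of_nonneg_right s1 (mul_pos (hw0 _) (by linarith)).le

end

end Pool.Agent.W_7d29a1_Z57
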